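import Pool.Agent.Helper81.Gat.Defs

/-!
Basic facts on the polytopes of the tower.
-/

set_option autoImplicit false

open Filter Topology Set
open scoped Pointwise

namespace Pool.Agent.Helper81.Gat

theorem KK_mono (c : ℕ → ℕ → ℝ) {n n' : ℕ} (h : n ≤ n') : KK c n ⊆ KK c n' := by
  apply convexHull_mono
  rintro t (ht | ⟨i, hi, ht⟩)
  · exact Or.inl ht
  · exact Or.inr ⟨i, hi.trans_le h, ht⟩

theorem KK_sub (c : ℕ → ℕ → ℝ) (n : ℕ) : KK c n ⊆ Kinf c :=
  (Set.subset_iUnion (fun n => KK c n) n).trans subset_closure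

namespace Basic

theorem teeth_finite (c : ℕ → ℕ → ℝ) (n : ℕ) : (teeth c n).Finite := by
  have h : teeth c n ⊆ {0} ∪ ((fun i => c i + Pi.single i 1) '' (Set.Iio n) ∪
      (fun i => c i - Pi.single i 1) '' (Set.Iio n)) := by
    rintro t (ht | ⟨i, hi, rfl | rfl⟩)
    · exact Or.inl ht
    · exact Or.inr (Or.inl ⟨i, hi, rfl⟩)
    · exact Or.inr (Or.inr ⟨i, hi, rfl⟩)
  exact ((Set.finite_singleton _).union (((Set.finite_Iio n).image _).union
    ((Set.finite_Iio n).image _))).subset h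

theorem exists_block {c : ℕ → ℕ → ℝ} {N : ℕ → ℕ} (h : Tower c N) (i : ℕ) :
    ∃ m, N m ≤ i ∧ i < N (m + 1) := by
  induction i with
  | zero => exact ⟨0, h.zero.le, (Nat.zero_le _).trans_lt (h.mono (Nat.lt_succ_self 0))⟩
  | succ i ih =>
    obtain ⟨m, h1, h2⟩ := ih
    by_cases h3 : i + 1 < N (m + 1)
    · exact ⟨m, h1.trans (Nat.le_succ i), h3⟩
    · have h4 : i + 1 = N (m + 1) := by omega
      exact ⟨m + 1, h4.ge, h4.trans_lt (h.mono (Nat.lt_succ_self (m + 1)))⟩

end Basic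

theorem isCompact_KK (c : ℕ → ℕ → ℝ) (n : ℕ) : IsCompact (KK c n) :=
  Set.Finite.isCompact_convexHull (𝕜 := ℝ) (Basic.teeth_finite c n)

theorem Tower.c_mem {c : ℕ → ℕ → ℝ} {N : ℕ → ℕ} (h : Tower c N) (i : ℕ) : c i ∈ KK c i := by
  obtain ⟨m, h1, h2⟩ := Basic.exists_block h i
  exact KK_mono c h1 (h.mem m i h1 h2)

namespace Basic

/-- The sequences with values in `[-1, 1]` supported in `[0, n)`. -/
def box (n : ℕ) : Set (ℕ → ℝ) := {k | (∀ j, n ≤ j → k j = 0) ∧ ∀ j, |k j| ≤ 1}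

theorem convex_box (n : ℕ) : Convex ℝ (box n) := by
  intro x hx y hy a b ha hb hab
  refine ⟨fun j hj => ?_, fun j => ?_⟩
  · change a * x j + b * y j = 0
    rw [hx.1 j hj, hy.1 j hj, mul_zero, mul_zero, add_zero]
  · change |a * x j + b * y j| ≤ 1
    calc |a * x j + b * y j| ≤ |a * x j| + |b * y j| := abs_add_le _ _
      _ = a * |x j| + b * |y j| := by rw [abs_mul, abs_mul, abs_of_nonneg ha, abs_of_nonneg hb]
      _ ≤ a * 1 + b * 1 := add_le_add (mul_le_mul_of_nonneg_left (hx.2 j) ha)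
          (mul_le_mul_of_nonneg_left (hy.2 j) hb)
      _ = 1 := by rw [mul_one, mul_one, hab]

theorem tooth_apply {c : ℕ → ℕ → ℝ} {i : ℕ} (hc : c i ∈ box i) {t : ℕ → ℝ}
    (ht : t = c i + Pi.single i 1 ∨ t = c i - Pi.single i 1) :
    (∀ j, j ≠ i → t j = c i j) ∧ |t i| = 1 := by
  rcases ht with rfl | rfl
  · refine ⟨fun j hj => ?_, ?_⟩
    · change c i j + (Pi.single i (1 : ℝ) : ℕ → ℝ) j = c i j
      rw [Pi.single_eq_of_ne hj, add_zero]
    · change |c i i + (Pi.single i (1 : ℝ) : ℕ → ℝ) i| = 1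
      rw [Pi.single_eq_same, hc.1 i le_rfl, zero_add, abs_one]
  · refine ⟨fun j hj => ?_, ?_⟩
    · change c i j - (Pi.single i (1 : ℝ) : ℕ → ℝ) j = c i j
      rw [Pi.single_eq_of_ne hj, sub_zero]
    · change |c i i - (Pi.single i (1 : ℝ) : ℕ → ℝ) i| = 1
      rw [Pi.single_eq_same, hc.1 i le_rfl, zero_sub, abs_neg, abs_one]

theorem KK_box {c : ℕ → ℕ → ℝ} {N : ℕ → ℕ} (h : Tower c N) (n : ℕ) : KK c n ⊆ box n := by
  induction n using Nat.strong_induction_on with
  | _ n ih =>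
    refine convexHull_min ?_ (convex_box n)
    rintro t (ht | ⟨i, hi, ht⟩)
    · rw [Set.mem_singleton_iff] at ht
      subst ht
      exact ⟨fun _ _ => rfl, fun j => by simp⟩
    · have hc : c i ∈ box i := ih i hi (h.c_mem i)
      obtain ⟨h1, h2⟩ := tooth_apply hc ht
      refine ⟨fun j hj => ?_, fun j => ?_⟩
      · rw [h1 j (by omega), hc.1 j (by omega)]
      · by_cases hj : j = i
        · rw [hj, h2]
        · rw [h1 j hj]
          exact hc.2 j

end Basic

theorem Tower.supp {c : ℕ → ℕ → ℝ} {N : ℕ → ℕ} (h : Tower c N) {n : ℕ} {k : ℕ → ℝ}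
    (hk : k ∈ KK c n) {j : ℕ} (hj : n ≤ j) : k j = 0 :=
  (Basic.KK_box h n hk).1 j hj

theorem Tower.abs_le {c : ℕ → ℕ → ℝ} {N : ℕ → ℕ} (h : Tower c N) {k : ℕ → ℝ}
    (hk : k ∈ Kinf c) (j : ℕ) : |k j| ≤ 1 := by
  have h1 : IsClosed {k : ℕ → ℝ | |k j| ≤ 1} :=
    isClosed_le (continuous_abs.comp (continuous_apply j)) continuous_const
  have h2 : (⋃ n, KK c n) ⊆ {k : ℕ → ℝ | |k j| ≤ 1} :=
    Set.iUnion_subset fun n k hk => (Basic.KK_box h n hk).2 j
  exact closure_minimal h2 h1 hk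

theorem Tower.isCompact {c : ℕ → ℕ → ℝ} {N : ℕ → ℕ} (h : Tower c N) : IsCompact (Kinf c) := by
  have h1 : IsCompact (Set.pi Set.univ fun _ : ℕ => Set.Icc (-1 : ℝ) 1) :=
    isCompact_univ_pi fun _ => isCompact_Icc
  refine h1.of_isClosed_subset isClosed_closure fun k hk j _ => ?_
  exact _root_.abs_le.1 (h.abs_le hk j)

theorem convex_Kinf (c : ℕ → ℕ → ℝ) : Convex ℝ (Kinf c) := by
  refine Convex.closure (Directed.convex_iUnion ?_ fun {n} => convex_convexHull ℝ _)
  intro a b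
  exact ⟨max a b, KK_mono c (le_max_left a b), KK_mono c (le_max_right a b)⟩

theorem zero_mem_Kinf (c : ℕ → ℕ → ℝ) : (0 : ℕ → ℝ) ∈ Kinf c :=
  KK_sub c 0 (subset_convexHull ℝ _ (Or.inl rfl))

namespace Basic

/-- The truncation. -/
noncomputable def tr (n : ℕ) : (ℕ → ℝ) →ₗ[ℝ] (ℕ → ℝ) where
  toFun k j := if j < n then k j else 0
  map_add' k k' := by
    funext j
    change (if j < n then k j + k' j else 0) = (if j < n then k j else 0) + if j < n then k' j else 0
    split_ifs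
    · rfl
    · rw [add_zero]
  map_smul' a k := by
    funext j
    change (if j < n then a * k j else 0) = a * if j < n then k j else 0
    split_ifs
    · rfl
    · rw [mul_zero]

theorem tr_apply (n : ℕ) (k : ℕ → ℝ) (j : ℕ) : tr n k j = if j < n then k j else 0 := rfl

theorem continuous_tr (n : ℕ) : Continuous (tr n) := by
  refine continuous_pi fun j => ?_
  by_cases hj : j < n
  · have : (fun k : ℕ → ℝ => tr n k j) = fun k => k j := by
      funext k
      rw [tr_apply, if_pos hj]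
    rw [this]
    exact continuous_apply j
  · have : (fun k : ℕ → ℝ => tr n k j) = fun _ => 0 := by
      funext k
      rw [tr_apply, if_neg hj]
    rw [this]
    exact continuous_const

theorem tr_mem {c : ℕ → ℕ → ℝ} {N : ℕ → ℕ} (h : Tower c N) (n n' : ℕ) :
    ∀ k ∈ KK c n', tr n k ∈ KK c n := by
  induction n' using Nat.strong_induction_on with
  | _ n' ih =>
    have hc : Convex ℝ ((tr n) ⁻¹' KK c n) := (convex_convexHull ℝ _).linear_preimage (tr n)
    refine fun k hk => (convexHull_min ?_ hc) hk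
    rintro t (ht | ⟨i, hi, ht⟩)
    · rw [Set.mem_singleton_iff] at ht
      subst ht
      rw [Set.mem_preimage, map_zero]
      exact subset_convexHull ℝ _ (Or.inl rfl)
    · have hci : c i ∈ box i := KK_box h i (h.c_mem i)
      obtain ⟨h1, h2⟩ := tooth_apply hci ht
      rw [Set.mem_preimage]
      by_cases hin : i < n
      · have h3 : tr n t = t := by
          funext j
          rw [tr_apply]
          by_cases hj : j < n
          · rw [if_pos hj]
          · rw [if_neg hj, h1 j (by omega), hci.1 j (by omega)]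
        rw [h3]
        exact subset_convexHull ℝ _ (Or.inr ⟨i, hin, ht⟩)
      · have h3 : tr n t = tr n (c i) := by
          funext j
          rw [tr_apply, tr_apply]
          by_cases hj : j < n
          · rw [if_pos hj, if_pos hj, h1 j (by omega)]
          · rw [if_neg hj, if_neg hj]
        rw [h3]
        exact ih i hi _ (h.c_mem i)

end Basic

theorem Tower.trunc {c : ℕ → ℕ → ℝ} {N : ℕ → ℕ} (h : Tower c N) {k : ℕ → ℝ}
    (hk : k ∈ Kinf c) (n : ℕ) : (fun j => if j < n then k j else 0) ∈ KK c n := by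
  have h1 : IsClosed ((Basic.tr n) ⁻¹' KK c n) :=
    (isCompact_KK c n).isClosed.preimage (Basic.continuous_tr n)
  have h2 : (⋃ n', KK c n') ⊆ (Basic.tr n) ⁻¹' KK c n :=
    Set.iUnion_subset fun n' k hk => Basic.tr_mem h n n' k hk
  exact closure_minimal h2 h1 hk

end Pool.Agent.Helper81.Gat
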