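import Pool.Agent.Helper81.Gat.Tower

/-!
# GAT-3: the key bound for chain functionals
-/

set_option autoImplicit false

open Filter Topology Set
open scoped Pointwise

namespace Pool.Agent.Helper81.Gat

namespace BoundMod

theorem pr_eq (g : ℕ → ℝ) (x : ℕ →₀ ℝ) : pr g x = ∑ i ∈ x.support, x i * g i := rfl

theorem pr_wv (g : ℕ → ℝ) (A : Finset ℕ) : pr g (wv A) = ∑ i ∈ A, g i := by
  unfold pr wv
  rw [← Finsupp.sum_finsetSum_index]
  · apply Finset.sum_congr rfl
    intro i _
    rw [Finsupp.sum_single_index]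
    · ring
    · ring
  · intro i; ring
  · intro i a b; ring

theorem pr_add (g g' : ℕ → ℝ) (x : ℕ →₀ ℝ) : pr (g + g') x = pr g x + pr g' x := by
  rw [pr_eq, pr_eq, pr_eq, ← Finset.sum_add_distrib]
  apply Finset.sum_congr rfl
  intro i _
  simp only [Pi.add_apply]
  ring

theorem pr_sub (g g' : ℕ → ℝ) (x : ℕ →₀ ℝ) : pr (g - g') x = pr g x - pr g' x := by
  rw [pr_eq, pr_eq, pr_eq, ← Finset.sum_sub_distrib]
  apply Finset.sum_congr rfl
  intro i _
  simp only [Pi.sub_apply]
  ring

theorem pr_smul (a : ℝ) (g : ℕ → ℝ) (x : ℕ →₀ ℝ) : pr (a • g) x = a * pr g x := by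
  rw [pr_eq, pr_eq, Finset.mul_sum]
  apply Finset.sum_congr rfl
  intro i _
  simp only [Pi.smul_apply, smul_eq_mul]
  ring

theorem pr_single (i : ℕ) (x : ℕ →₀ ℝ) : pr (Pi.single i 1) x = x i := by
  rw [pr_eq]
  by_cases hi : i ∈ x.support
  · rw [Finset.sum_eq_single i]
    · simp
    · intro j _ hj
      simp [hj]
    · intro h; exact absurd hi h
  · rw [Finset.sum_eq_zero]
    · rw [Finsupp.notMem_support_iff] at hi
      exact hi.symm
    · intro j hj
      have : j ≠ i := fun h => hi (h ▸ hj)
      simp [this]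

theorem continuous_pr (x : ℕ →₀ ℝ) : Continuous fun g : ℕ → ℝ => pr g x := by
  simp only [pr_eq]
  fun_prop

theorem exists_level {N : ℕ → ℕ} (h0 : N 0 = 0) (hm : StrictMono N) (i : ℕ) :
    ∃ m, N m ≤ i ∧ i < N (m + 1) := by
  have hex : ∃ m, i < N (m + 1) := ⟨i, lt_of_lt_of_le (Nat.lt_succ_self i) hm.le_apply⟩
  classical
  refine ⟨Nat.find hex, ?_, Nat.find_spec hex⟩
  rcases Nat.eq_zero_or_pos (Nat.find hex) with h | h
  · rw [h, h0]; exact Nat.zero_le _
  · have := Nat.find_min hex (m := Nat.find hex - 1) (by omega)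
    rw [Nat.sub_add_cancel h] at this
    omega

theorem c_zero {c : ℕ → ℕ → ℝ} {N : ℕ → ℕ} (h : Tower c N) :
    ∀ i j, i ≤ j → c i j = 0 := by
  intro i
  induction i using Nat.strong_induction_on with
  | _ i ih =>
    intro j hij
    obtain ⟨m, hm1, hm2⟩ := exists_level h.zero h.mono i
    exact TowerMod.vanish (fun i' hi' j' hj' => ih i' (by omega) j' (by omega))
      (h.mem m i hm1 hm2) j (by omega)

theorem mono (c : ℕ → ℕ → ℝ) {n n' : ℕ} (h : n ≤ n') : KK c n ⊆ KK c n' := by
  apply convexHull_mono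
  rintro t (ht | ⟨i, hi, ht⟩)
  · exact Or.inl ht
  · exact Or.inr ⟨i, by omega, ht⟩

theorem c_mem {c : ℕ → ℕ → ℝ} {N : ℕ → ℕ} (h : Tower c N) (i : ℕ) : c i ∈ KK c i := by
  obtain ⟨m, hm1, hm2⟩ := exists_level h.zero h.mono i
  exact mono c hm1 (h.mem m i hm1 hm2)

theorem convex_good (α : ℝ) (x w : ℕ →₀ ℝ) :
    Convex ℝ {g : ℕ → ℝ | |pr g w| ≤ 2 * (α + pr g x)} := by
  intro g hg g' hg' a b ha hb hab
  simp only [Set.mem_ofPred_eq] at hg hg' ⊢
  rw [pr_add, pr_add, pr_smul, pr_smul, pr_smul, pr_smul]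
  calc |a * pr g w + b * pr g' w| ≤ |a * pr g w| + |b * pr g' w| := abs_add_le _ _
    _ = a * |pr g w| + b * |pr g' w| := by rw [abs_mul, abs_mul, abs_of_nonneg ha, abs_of_nonneg hb]
    _ ≤ a * (2 * (α + pr g x)) + b * (2 * (α + pr g' x)) := by
        gcongr
    _ = 2 * ((a + b) * α + (a * pr g x + b * pr g' x)) := by ring
    _ = _ := by rw [hab, one_mul]

end BoundMod

open BoundMod in
theorem Tower.bound {c : ℕ → ℕ → ℝ} {N : ℕ → ℕ} (h : Tower c N) (A : Finset ℕ) (hA : Good c A)
    (α : ℝ) (x : ℕ →₀ ℝ) (J : ℕ) (hx : ∀ j ∈ x.support, j < J) (hAJ : ∀ i ∈ A, J ≤ i)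
    (h0 : ∀ g ∈ Kinf c, 0 ≤ α + pr g x) (h1 : ∀ i ∈ A, 1 ≤ α + pr (c i) x)
    (g : ℕ → ℝ) (hg : g ∈ Kinf c) : |pr g (wv A)| ≤ 2 * (α + pr g x) := by
  have hsub : ∀ n, KK c n ⊆ Kinf c := fun n =>
    (subset_iUnion (fun n => KK c n) n).trans subset_closure
  have hxz : ∀ i, J ≤ i → x i = 0 := by
    intro i hi
    by_contra hne
    have := hx i (Finsupp.mem_support_iff.2 hne)
    omega
  have claim : ∀ n, KK c n ⊆ {g : ℕ → ℝ | |pr g (wv A)| ≤ 2 * (α + pr g x)} := by
    intro n
    induction n using Nat.strong_induction_on with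
    | _ n ih =>
      apply convexHull_min _ (convex_good α x (wv A))
      -- the common part of the two teeth
      have tooth : ∀ i < n, ∀ s : ℝ, |s| ≤ 1 →
          (c i + s • Pi.single (M := fun _ : ℕ => ℝ) i (1 : ℝ)) ∈ KK c n →
          |pr (c i + s • Pi.single (M := fun _ : ℕ => ℝ) i (1 : ℝ)) (wv A)| ≤
            2 * (α + pr (c i + s • Pi.single (M := fun _ : ℕ => ℝ) i (1 : ℝ)) x) := by
        intro i hi s hs hmem
        by_cases hiA : i ∈ A
        · have hJi := hAJ i hiA
          rw [pr_add, pr_smul, pr_single, pr_add, pr_smul, pr_single, hxz i hJi]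
          have hw1 : (wv A) i = 1 := by
            unfold wv
            rw [Finsupp.finsetSum_apply]
            rw [Finset.sum_eq_single i]
            · simp
            · intro j _ hj
              simp [hj]
            · intro h'; exact absurd hiA h'
          rw [hw1, pr_wv]
          have e1 : ∑ j ∈ A, c i j = ∑ j ∈ A.filter (fun i' => i' < i), c i j := by
            rw [Finset.sum_filter]
            apply Finset.sum_congr rfl
            intro j _
            split_ifs with hji
            · rfl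
            · exact c_zero h i j (by omega)
          rw [e1]
          have e2 : |∑ j ∈ A.filter (fun i' => i' < i), c i j| ≤ 1 :=
            (Finset.abs_sum_le_sum_abs _ _).trans (hA i hiA)
          have e3 := h1 i hiA
          calc _ ≤ |∑ j ∈ A.filter (fun i' => i' < i), c i j| + |s * 1| := abs_add_le _ _
            _ ≤ 1 + 1 := by rw [mul_one]; gcongr
            _ ≤ _ := by linarith
        · have hw0 : (wv A) i = 0 := by
            unfold wv
            rw [Finsupp.finsetSum_apply]
            apply Finset.sum_eq_zero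
            intro j hj
            have : j ≠ i := fun h' => hiA (h' ▸ hj)
            simp [this]
          rcases le_or_gt J i with hJi | hiJ
          · rw [pr_add, pr_smul, pr_single, pr_add, pr_smul, pr_single, hxz i hJi, hw0]
            simp only [mul_zero, add_zero]
            exact ih i hi (c_mem h i)
          · have e0 := h0 _ (hsub n hmem)
            have e1 : pr (c i + s • Pi.single (M := fun _ : ℕ => ℝ) i (1 : ℝ)) (wv A) = 0 := by
              rw [pr_add, pr_smul, pr_single, hw0, pr_wv]
              rw [Finset.sum_eq_zero]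
              · simp
              · intro j hj
                have := hAJ j hj
                exact c_zero h i j (by omega)
            rw [e1, abs_zero]
            linarith
      have hteeth : ∀ t ∈ teeth c n, t ∈ KK c n := fun t ht => subset_convexHull ℝ _ ht
      rintro t (ht | ⟨i, hi, ht⟩)
      · rw [Set.mem_singleton_iff] at ht
        subst ht
        have e0 := h0 0 (hsub n (TowerMod.zero_mem c n))
        have hz : ∀ y : ℕ →₀ ℝ, pr 0 y = 0 := by
          intro y
          rw [pr_eq]
          simp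
        simp only [Set.mem_ofPred_eq]
        rw [hz, abs_zero]
        linarith
      · have ht' : t ∈ KK c n := hteeth t (Or.inr ⟨i, hi, ht⟩)
        simp only [Set.mem_ofPred_eq]
        rcases ht with ht | ht
        · have e : t = c i + (1 : ℝ) • Pi.single (M := fun _ : ℕ => ℝ) i (1 : ℝ) := by
            rw [one_smul]; exact ht
          rw [e] at ht' ⊢
          exact tooth i hi 1 (by simp) ht'
        · have e : t = c i + (-1 : ℝ) • Pi.single (M := fun _ : ℕ => ℝ) i (1 : ℝ) := by
            rw [neg_one_smul, ← sub_eq_add_neg]; exact ht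
          rw [e] at ht' ⊢
          exact tooth i hi (-1) (by simp) ht'
  have hclosed : IsClosed {g : ℕ → ℝ | |pr g (wv A)| ≤ 2 * (α + pr g x)} := by
    apply isClosed_le
    · exact (continuous_pr _).abs
    · exact continuous_const.mul (continuous_const.add (continuous_pr _))
  have : Kinf c ⊆ {g : ℕ → ℝ | |pr g (wv A)| ≤ 2 * (α + pr g x)} :=
    closure_minimal (iUnion_subset claim) hclosed
  exact this hg

end Pool.Agent.Helper81.Gat
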