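import Mathlib

/-!
Definitions for the construction of a separable Banach space without `ℓ₁` in the class `𝒞`.
-/

set_option autoImplicit false

open Filter Topology Set
open scoped Pointwise

namespace Pool.Agent.Helper81.Gat

/-- The points `0` and `c i ± e i`, `i < n`. -/
def teeth (c : ℕ → ℕ → ℝ) (n : ℕ) : Set (ℕ → ℝ) :=
  {0} ∪ {t | ∃ i < n, t = c i + Pi.single i 1 ∨ t = c i - Pi.single i 1}

/-- The polytope `conv {0, c i ± e i : i < n}`. -/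
def KK (c : ℕ → ℕ → ℝ) (n : ℕ) : Set (ℕ → ℝ) := convexHull ℝ (teeth c n)

/-- The closure of the union of the polytopes. -/
def Kinf (c : ℕ → ℕ → ℝ) : Set (ℕ → ℝ) := closure (⋃ n, KK c n)

/-- The centres `c i`, `N m ≤ i < N (m + 1)`, form a `2 ^ (-m)`-net of `KK c (N m)`. -/
structure Tower (c : ℕ → ℕ → ℝ) (N : ℕ → ℕ) : Prop where
  zero : N 0 = 0
  mono : StrictMono N
  mem : ∀ m i, N m ≤ i → i < N (m + 1) → c i ∈ KK c (N m)
  net : ∀ m, ∀ p ∈ KK c (N m), ∃ i, N m ≤ i ∧ i < N (m + 1) ∧ ∀ j, |c i j - p j| ≤ (1 / 2) ^ m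

/-- The pairing of a sequence and a finitely supported one. -/
noncomputable def pr (k : ℕ → ℝ) (x : ℕ →₀ ℝ) : ℝ := x.sum fun i a => a * k i

/-- The indicator of a finite set. -/
noncomputable def wv (A : Finset ℕ) : ℕ →₀ ℝ := ∑ i ∈ A, Finsupp.single i 1

/-- Small coordinates of the centres along `A`. -/
def Good (c : ℕ → ℕ → ℝ) (A : Finset ℕ) : Prop :=
  ∀ i ∈ A, ∑ i' ∈ A.filter (fun i' => i' < i), |c i i'| ≤ 1

/-- The centres along `A` are close to `k`. -/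
def Coh (c : ℕ → ℕ → ℝ) (N : ℕ → ℕ) (A : Finset ℕ) (k : ℕ → ℝ) : Prop :=
  ∀ i ∈ A, ∀ m, N m ≤ i → ∀ j < N m, |c i j - k j| ≤ (1 / 2) ^ m

/-- The vectors `∑_{i ∈ A} e i` for the chains `A`. -/
def WW (c : ℕ → ℕ → ℝ) (N : ℕ → ℕ) : Set (ℕ →₀ ℝ) :=
  {w | ∃ A : Finset ℕ, ∃ k ∈ Kinf c, Good c A ∧ Coh c N A k ∧ w = wv A}

/-- The `n`-th interpolation seminorm `inf_y (2 ^ (-n) q(y) + 2 ^ n p(x - y))`. -/
noncomputable def sn {V : Type*} [AddCommGroup V] [Module ℝ V] (p q : Seminorm ℝ V) (n : ℕ) :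
    Seminorm ℝ V :=
  (((1 / 2 : NNReal) ^ n) • q) ⊓ (((2 : NNReal) ^ n) • p)

/-- The supremum of the interpolation seminorms. -/
noncomputable def nrm {V : Type*} [AddCommGroup V] [Module ℝ V] (p q : Seminorm ℝ V) :
    Seminorm ℝ V := ⨆ n, sn p q n

end Pool.Agent.Helper81.Gat
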