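import Pool.Agent.Helper81.Gat.Space

/-!
# The Banach space is in the class and does not contain `ℓ₁`
-/

set_option autoImplicit false

open Filter Topology Set TopologicalSpace
open scoped Pointwise

namespace Pool.Agent.Helper81.Gat.Sp

open Pool.Agent.Helper93.GateauxChar

lemma exists_functional {k : ℕ → ℝ} (hk : k ∈ Kinf cc) :
    ∃ f : StrongDual ℝ XX, ∀ x, f (jj x) = pr k x := by
  let f0 : V →L[ℝ] ℝ := LinearMap.mkContinuous
    ((Finsupp.linearCombination ℝ k) ∘ₗ toV.symm.toLinearMap) 2 (fun x => by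
      have h1 := abs_pr_le hk (toV.symm x)
      have h2 := pp_le_nn (toV.symm x)
      exact h1.trans h2)
  refine ⟨f0.fromCompletion, fun x => ?_⟩
  exact ContinuousLinearMap.fromCompletion_apply_coe f0 (toV x)

lemma apply_jj (f : StrongDual ℝ XX) (x : ℕ →₀ ℝ) :
    f (jj x) = pr (fun i => f (jj (Finsupp.single i 1))) x := by
  rw [pr_eq]
  have h : f.toLinearMap ∘ₗ jj =
      Finsupp.linearCombination ℝ (fun i => f (jj (Finsupp.single i 1))) := by
    ext i
    simp
  exact congrArg (fun L : (ℕ →₀ ℝ) →ₗ[ℝ] ℝ => L x) h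

/-- The weak-star compact convex set. -/
def KS : Set (StrongDual ℝ XX) := {f | (fun i => f (jj (Finsupp.single i 1))) ∈ Kinf cc}

lemma norm_le_of_mem {f : StrongDual ℝ XX} (hf : f ∈ KS) : ‖f‖ ≤ 2 := by
  refine f.opNorm_le_bound (by norm_num) fun z => ?_
  refine denseRange_jj.induction_on (p := fun z => ‖f z‖ ≤ 2 * ‖z‖) z
    (isClosed_le f.continuous.norm (continuous_norm.const_mul 2)) fun x => ?_
  rw [norm_jj, apply_jj, Real.norm_eq_abs]
  exact (abs_pr_le hf x).trans (pp_le_nn x)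

lemma compact_KS : IsWeakStarCompact KS := by
  refine weakStarCompact_of_bdd_closed (R := 2) (fun f hf => norm_le_of_mem hf) ?_
  have : StrongDual.toWeakDual '' KS = (fun f : WeakDual ℝ XX =>
      (fun i => f (jj (Finsupp.single i 1)) : ℕ → ℝ)) ⁻¹' (Kinf cc) := by
    ext f
    constructor
    · rintro ⟨g, hg, rfl⟩
      exact hg
    · intro hf
      exact ⟨WeakDual.toStrongDual f, hf, rfl⟩
  rw [this]
  refine IsClosed.preimage ?_ isClosed_closure
  exact continuous_pi fun i => WeakDual.eval_continuous _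

lemma convex_KS : Convex ℝ KS := by
  intro f hf g hg a b ha hb hab
  exact convex_Kinf cc hf hg ha hb hab

lemma nonempty_KS : KS.Nonempty := ⟨0, zero_mem_Kinf cc⟩

lemma tendsto_pr {g : ℕ → ℕ → ℝ} {k : ℕ → ℝ} (h : ∀ j, Tendsto (fun m => g m j) atTop (𝓝 (k j)))
    (x : ℕ →₀ ℝ) : Tendsto (fun m => pr (g m) x) atTop (𝓝 (pr k x)) := by
  unfold pr Finsupp.sum
  exact tendsto_finsetSum _ fun j _ => (h j).const_mul (x j)

lemma norm_jj_le_one {w : ℕ →₀ ℝ} (hw : w ∈ WW cc NN) : ‖jj w‖ ≤ 1 := by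
  rw [norm_jj]
  exact (nrm_le pp qq w).trans (qq_le_one hw)

lemma noPC {f : StrongDual ℝ XX} (hf : f ∈ KS) : ¬ IsWeakStarWeakPC KS f := by
  intro hpc
  obtain ⟨g, w, ε, hε, hg, hglim, hw, hsep⟩ := tw.rough _ hf
  choose G hG using fun m => exists_functional (hg m)
  have hGK : ∀ m, G m ∈ KS := fun m => by
    have : (fun i => G m (jj (Finsupp.single i 1))) = g m := by
      ext i
      rw [hG, pr_single]
    rw [KS, mem_ofPred_eq, this]
    exact hg m
  have hGlim : ∀ x : XX, Tendsto (fun m => G m x) atTop (𝓝 (f x)) := by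
    intro x
    rw [Metric.tendsto_atTop]
    intro δ hδ
    obtain ⟨y, hy⟩ := denseRange_jj.exists_dist_lt x (show 0 < δ / 8 by positivity)
    have h1 := tendsto_pr hglim y
    rw [Metric.tendsto_atTop] at h1
    obtain ⟨M, hM⟩ := h1 (δ / 2) (by positivity)
    refine ⟨M, fun m hm => ?_⟩
    have h2 := hM m hm
    rw [Real.dist_eq] at h2 ⊢
    rw [dist_eq_norm] at hy
    have h3 : G m x - f x = G m (x - jj y) + (pr (g m) y - pr (fun i => f (jj (Finsupp.single i 1))) y)
        - f (x - jj y) := by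
      rw [map_sub, map_sub, hG, apply_jj f y]
      ring
    have h4 : |G m (x - jj y)| ≤ 2 * (δ / 8) := by
      have := (G m).le_opNorm (x - jj y)
      rw [Real.norm_eq_abs] at this
      refine this.trans ?_
      exact mul_le_mul (norm_le_of_mem (hGK m)) hy.le (norm_nonneg _) (by norm_num)
    have h5 : |f (x - jj y)| ≤ 2 * (δ / 8) := by
      have := f.le_opNorm (x - jj y)
      rw [Real.norm_eq_abs] at this
      refine this.trans ?_
      exact mul_le_mul (norm_le_of_mem hf) hy.le (norm_nonneg _) (by norm_num)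
    rw [h3]
    rw [abs_le] at h4 h5
    rw [abs_lt] at h2 ⊢
    constructor <;> linarith [h2.1, h2.2, h4.1, h4.2, h5.1, h5.2]
  -- a weak-star cluster point in the bidual
  let U : Ultrafilter ℕ := Filter.hyperfilter ℕ
  let J : ℕ → WeakDual ℝ (StrongDual ℝ XX) := fun n =>
    StrongDual.toWeakDual (NormedSpace.inclusionInDoubleDual ℝ XX (jj (w n)))
  obtain ⟨u, hu, hle⟩ := (WeakDual.isCompact_closedBall (𝕜 := ℝ) (E := StrongDual ℝ XX) 0 1
    ).ultrafilter_le_nhds (U.map J) (by
      rw [le_principal_iff]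
      change J ⁻¹' _ ∈ (U : Filter ℕ)
      refine Filter.mem_of_superset Filter.univ_mem fun n _ => ?_
      simp only [mem_preimage, Metric.mem_closedBall, dist_zero_right]
      refine ContinuousLinearMap.opNorm_le_bound _ zero_le_one fun φ => ?_
      have h1 : ‖φ (jj (w n))‖ ≤ ‖φ‖ * ‖jj (w n)‖ := φ.le_opNorm _
      have h2 := mul_le_mul_of_nonneg_left (norm_jj_le_one (hw n)) (norm_nonneg φ)
      rw [one_mul]
      calc _ ≤ ‖φ‖ * ‖jj (w n)‖ := h1
        _ ≤ ‖φ‖ * 1 := h2
        _ = ‖φ‖ := mul_one _)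
  have hlim : ∀ φ : StrongDual ℝ XX, Tendsto (fun n => φ (jj (w n))) (U : Filter ℕ) (𝓝 (u φ)) := by
    intro φ
    have h1 : Tendsto J (U : Filter ℕ) (𝓝 u) := hle
    exact ((WeakDual.eval_continuous φ).tendsto u).comp h1
  have hge : ∀ m, ε ≤ |u (G m) - u f| := by
    intro m
    have h1 : Tendsto (fun n => |G m (jj (w n)) - f (jj (w n))|) (U : Filter ℕ)
        (𝓝 (|u (G m) - u f|)) := ((hlim (G m)).sub (hlim f)).abs
    refine ge_of_tendsto h1 ?_
    have h2 : (U : Filter ℕ) ≤ atTop := Nat.hyperfilter_le_atTop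
    refine h2 ?_
    filter_upwards [hsep m] with n hn
    rw [hG, apply_jj f]
    exact hn
  have h6 := pc_seq hpc hGK hGlim (WeakDual.toStrongDual u)
  have h7 : Tendsto (fun m => |u (G m) - u f|) atTop (𝓝 0) := by
    have := (h6.sub_const (WeakDual.toStrongDual u f)).abs
    rw [sub_self, abs_zero] at this
    exact this
  have h8 := ge_of_tendsto h7 (Eventually.of_forall hge)
  linarith

theorem inClassC : InClassC XX :=
  backward nonempty_KS convex_KS compact_KS fun _ hk => noPC hk.1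

/-- The space does not contain `ℓ₁`. -/
theorem no_ell1 : ¬ ∃ (T : lp (fun _ : ℕ => ℝ) 1 →L[ℝ] XX) (c : ℝ), 0 < c ∧
    ∀ v, c * ‖v‖ ≤ ‖T v‖ := by
  rintro ⟨T, c, hc, hT⟩
  -- approximation of the images of the unit vectors
  choose x hx using fun j : ℕ => denseRange_jj.exists_dist_lt (T (lp.single 1 j (1 : ℝ)))
    (show 0 < c / 2 by positivity)
  set R : ℝ := ‖T‖ + c / 2 with hR
  have hRpos : 0 < R := by positivity
  have hxn : ∀ j, nn (x j) ≤ R := by
    intro j
    rw [← norm_jj]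
    have h1 : ‖T (lp.single 1 j (1 : ℝ))‖ ≤ ‖T‖ := by
      refine (T.le_opNorm _).trans ?_
      rw [lp.norm_single (by norm_num)]
      simp
    have h2 := hx j
    rw [dist_comm, dist_eq_norm] at h2
    calc ‖jj (x j)‖ = ‖T (lp.single 1 j (1 : ℝ)) + (jj (x j) - T (lp.single 1 j (1 : ℝ)))‖ := by
          rw [add_sub_cancel]
      _ ≤ ‖T (lp.single 1 j (1 : ℝ))‖ + ‖jj (x j) - T (lp.single 1 j (1 : ℝ))‖ := norm_add_le _ _
      _ ≤ R := by rw [hR]; exact add_le_add h1 h2.le
  have hlow : ∀ (J : ℕ) (a : ℕ → ℝ), c / 2 * ∑ j ∈ Finset.range J, |a j| ≤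
      nn (∑ j ∈ Finset.range J, a j • x j) := by
    intro J a
    rw [← norm_jj, map_sum]
    have h1 : T (∑ j ∈ Finset.range J, lp.single 1 j (a j)) =
        ∑ j ∈ Finset.range J, a j • T (lp.single 1 j (1 : ℝ)) := by
      rw [map_sum]
      refine Finset.sum_congr rfl fun n _ => ?_
      rw [← map_smul]
      congr 1
      ext m
      by_cases h : m = n
      · subst h; simp
      · simp [h]
    have h2 : ‖∑ j ∈ Finset.range J, (lp.single 1 j (a j) : lp (fun _ : ℕ => ℝ) 1)‖ =
        ∑ j ∈ Finset.range J, |a j| := by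
      have := lp.norm_sum_single (E := fun _ : ℕ => ℝ) (p := 1) (by norm_num) a (Finset.range J)
      simpa using this
    have h3 := hT (∑ j ∈ Finset.range J, lp.single 1 j (a j))
    rw [h2, h1] at h3
    have h4 : ‖∑ j ∈ Finset.range J, a j • T (lp.single 1 j (1 : ℝ)) -
        ∑ j ∈ Finset.range J, jj (a j • x j)‖ ≤ c / 2 * ∑ j ∈ Finset.range J, |a j| := by
      rw [← Finset.sum_sub_distrib, Finset.mul_sum]
      refine norm_sum_le_of_le _ fun j _ => ?_
      rw [map_smul, ← smul_sub, norm_smul, Real.norm_eq_abs, mul_comm]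
      have := (hx j).le
      rw [dist_eq_norm] at this
      exact mul_le_mul_of_nonneg_right this (abs_nonneg _)
    have h5 := norm_sub_norm_le (∑ j ∈ Finset.range J, a j • T (lp.single 1 j (1 : ℝ)))
      (∑ j ∈ Finset.range J, jj (a j • x j))
    linarith
  obtain ⟨y, T', c', hc', hy, hlow'⟩ := exists_ell1_hull pp qq (fun j => R⁻¹ • x j) (c / 2 / R)
    (by positivity) (fun j => by
      change nn (R⁻¹ • x j) ≤ 1
      rw [map_smul_eq_mul, Real.norm_eq_abs, abs_of_pos (inv_pos.mpr hRpos)]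
      rw [inv_mul_le_iff₀ hRpos, mul_one]
      exact hxn j) (fun J a => by
      change _ ≤ nn (∑ j ∈ Finset.range J, a j • R⁻¹ • x j)
      have h1 : ∑ j ∈ Finset.range J, a j • R⁻¹ • x j =
          R⁻¹ • ∑ j ∈ Finset.range J, a j • x j := by
        rw [Finset.smul_sum]
        exact Finset.sum_congr rfl fun j _ => smul_comm _ _ _
      rw [h1, map_smul_eq_mul, Real.norm_eq_abs, abs_of_pos (inv_pos.mpr hRpos)]
      have h2 := mul_le_mul_of_nonneg_left (hlow J a) (inv_pos.mpr hRpos).le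
      calc c / 2 / R * ∑ j ∈ Finset.range J, |a j| =
          R⁻¹ * (c / 2 * ∑ j ∈ Finset.range J, |a j|) := by
            field_simp
        _ ≤ _ := h2)
  obtain ⟨μ, hμ, hsep⟩ := exists_measure (fun j => ev (y j)) c' hc' (fun J a => by
    refine (hlow' J a).trans (le_of_eq ?_)
    rw [pp_apply, map_sum]
    simp only [map_smul])
  refine no_separated μ (ev '' WW cc NN) 2 ?_ ?_ (fun n => ev (y n)) (T' + 1) ?_ c' hc' hsep
  · rintro _ ⟨w, hw, rfl⟩
    exact pp_wv hw
  · intro w hw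
    choose v hv hvw using hw
    obtain ⟨φ, hφ, hlim⟩ := tw.precomp v hv
    refine ⟨φ, hφ, fun k => ?_⟩
    obtain ⟨l, hl⟩ := hlim k.1 k.2
    refine ⟨l, hl.congr fun n => ?_⟩
    rw [← hvw, ev_apply]
  · intro n
    have h1 := mem_of_qq_le (hy n)
    obtain ⟨z, hz, hzy⟩ := h1
    refine ⟨ev z, ?_, ?_⟩
    · have h2 : ev '' (convexHull ℝ (WW cc NN ∪ -WW cc NN)) =
          convexHull ℝ (ev '' (WW cc NN ∪ -WW cc NN)) := ev.image_convexHull _
      have h3 : ev '' (WW cc NN ∪ -WW cc NN) = ev '' WW cc NN ∪ -(ev '' WW cc NN) := by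
        rw [image_union]
        congr 1
        ext f
        constructor
        · rintro ⟨w, hw, rfl⟩
          exact ⟨-w, hw, map_neg ev w⟩
        · rintro ⟨w, hw, hwf⟩
          refine ⟨-w, by simpa using hw, ?_⟩
          rw [map_neg, hwf, neg_neg]
      rw [← h3, ← h2]
      exact ⟨z, hz, rfl⟩
    · change (T' + 1) • ev z = ev (y n)
      rw [← map_smul]
      exact congrArg ev hzy

end Pool.Agent.Helper81.Gat.Sp
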