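import Pool.Agent.Helper81.Gat.Defs

/-!
The interpolation norm (module GAT-9).
-/

set_option autoImplicit false

open Filter Topology Set
open scoped Pointwise

namespace Pool.Agent.Helper81.Gat

section
variable {V : Type*} [AddCommGroup V] [Module ℝ V] (p q : Seminorm ℝ V)

theorem sn_apply (n : ℕ) (x : V) :
    sn p q n x = ⨅ y : V, (1 / 2 : ℝ) ^ n * q y + 2 ^ n * p (x - y) := by
  unfold sn
  rw [Seminorm.inf_apply]
  simp only [smul_apply, NNReal.smul_def, smul_eq_mul]
  push_cast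
  rfl

namespace Interp

theorem bddBelow_sn (n : ℕ) (x : V) :
    BddBelow (range fun y : V => (1 / 2 : ℝ) ^ n * q y + 2 ^ n * p (x - y)) :=
  ⟨0, by
    rintro _ ⟨y, rfl⟩
    have h1 := apply_nonneg q y
    have h2 := apply_nonneg p (x - y)
    positivity⟩

theorem sn_le (n : ℕ) (x y : V) :
    sn p q n x ≤ (1 / 2 : ℝ) ^ n * q y + 2 ^ n * p (x - y) := by
  rw [sn_apply]
  exact ciInf_le (bddBelow_sn p q n x) y

theorem sn_le_p (n : ℕ) (x : V) : sn p q n x ≤ 2 ^ n * p x := by
  have h := sn_le p q n x 0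
  simpa using h

theorem sn_le_q' (n : ℕ) (x : V) : sn p q n x ≤ (1 / 2 : ℝ) ^ n * q x := by
  have h := sn_le p q n x x
  simpa using h

theorem sn_le_q (n : ℕ) (x : V) : sn p q n x ≤ q x := by
  refine (sn_le_q' p q n x).trans ?_
  have h1 := apply_nonneg q x
  have h2 : (1 / 2 : ℝ) ^ n ≤ 1 := pow_le_one₀ (by norm_num) (by norm_num)
  calc (1 / 2 : ℝ) ^ n * q x ≤ 1 * q x := mul_le_mul_of_nonneg_right h2 h1
    _ = q x := one_mul _

theorem bddAbove_sn : BddAbove (range fun n => sn p q n) :=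
  ⟨q, by
    rintro _ ⟨n, rfl⟩
    exact fun x => sn_le_q p q n x⟩

theorem nrm_apply (x : V) : nrm p q x = ⨆ n, sn p q n x := by
  unfold nrm
  exact Seminorm.iSup_apply (bddAbove_sn p q)

theorem bddAbove_sn' (x : V) : BddAbove (range fun n => sn p q n x) :=
  ⟨q x, by
    rintro _ ⟨n, rfl⟩
    exact sn_le_q p q n x⟩

end Interp

open Interp

theorem nrm_le (x : V) : nrm p q x ≤ q x := by
  rw [nrm_apply]
  exact ciSup_le fun n => sn_le_q p q n x

theorem sn_le_nrm (n : ℕ) (x : V) : sn p q n x ≤ nrm p q x := by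
  rw [nrm_apply]
  exact le_ciSup (bddAbove_sn' p q x) n

theorem le_nrm (hpq : ∀ x, p x ≤ 2 * q x) (x : V) : p x ≤ 2 * nrm p q x := by
  have h1 : p x / 2 ≤ sn p q 0 x := by
    rw [sn_apply]
    apply le_ciInf
    intro y
    have h2 : p x ≤ p y + p (x - y) := by
      have := map_add_le_add p y (x - y)
      rwa [add_sub_cancel] at this
    have h3 := hpq y
    have h4 := apply_nonneg p (x - y)
    simp only [pow_zero, one_mul]
    linarith
  have h5 := sn_le_nrm p q 0 x
  linarith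

namespace Interp

/-- The seminorm of a linear combination. -/
theorem sum_le (r : Seminorm ℝ V) (J : ℕ) (a : ℕ → ℝ) (x : ℕ → V) (M : ℝ)
    (hx : ∀ j < J, r (x j) ≤ M) :
    r (∑ j ∈ Finset.range J, a j • x j) ≤ M * ∑ j ∈ Finset.range J, |a j| := by
  calc r (∑ j ∈ Finset.range J, a j • x j) ≤ ∑ j ∈ Finset.range J, r (a j • x j) :=
        Finset.le_sum_of_subadditive r (map_zero r).le (map_add_le_add r) _ _
    _ ≤ ∑ j ∈ Finset.range J, M * |a j| := by
        apply Finset.sum_le_sum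
        intro j hj
        rw [map_smul_eq_mul, Real.norm_eq_abs, mul_comm]
        exact mul_le_mul_of_nonneg_right (hx j (Finset.mem_range.mp hj)) (abs_nonneg _)
    _ = M * ∑ j ∈ Finset.range J, |a j| := by rw [Finset.mul_sum]

theorem blocks (x : ℕ → V) (hx : ∀ j, nrm p q (x j) ≤ 1) (ε : ℝ) (hε : 0 < ε)
    (hneg : ∀ c1 : ℝ, 0 < c1 → ∀ j0 : ℕ, ∃ (J : ℕ) (a : ℕ → ℝ),
      p (∑ j ∈ Finset.range J, a j • x (j0 + j)) < c1 * ∑ j ∈ Finset.range J, |a j|) (R : ℕ) :
    ∃ (J : ℕ) (a : ℕ → ℝ), ∑ j ∈ Finset.range J, |a j| = R ∧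
      ∀ n, sn p q n (∑ j ∈ Finset.range J, a j • x j) ≤ 1 + R * ε := by
  induction R with
  | zero =>
    refine ⟨0, fun _ => 0, by simp, ?_⟩
    intro n
    simp
  | succ R ih =>
    obtain ⟨J, a, hsum, hsn⟩ := ih
    set z := ∑ j ∈ Finset.range J, a j • x j with hz
    obtain ⟨N, hN⟩ : ∃ N : ℕ, (1 / 2 : ℝ) ^ N * q z ≤ ε := by
      have h1 := apply_nonneg q z
      obtain ⟨N, hN⟩ := exists_pow_lt_of_lt_one (show (0 : ℝ) < ε / (q z + 1) by positivity)
        (show (1 / 2 : ℝ) < 1 by norm_num)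
      refine ⟨N, ?_⟩
      have h2 : (1 / 2 : ℝ) ^ N * q z ≤ ε / (q z + 1) * q z :=
        mul_le_mul_of_nonneg_right hN.le h1
      refine h2.trans ?_
      rw [div_mul_eq_mul_div, div_le_iff₀ (by linarith)]
      nlinarith
    obtain ⟨J', a', h'⟩ := hneg (ε * (1 / 2 : ℝ) ^ N) (by positivity) J
    set S := ∑ j ∈ Finset.range J', |a' j| with hS
    have hS0 : 0 < S := by
      have h0 : 0 ≤ S := Finset.sum_nonneg fun j _ => abs_nonneg _
      rcases h0.lt_or_eq with h | h
      · exact h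
      · exfalso
        rw [← h, mul_zero] at h'
        exact absurd (apply_nonneg p _) (not_le.mpr h')
    -- the new block
    set y := ∑ j ∈ Finset.range J', (a' j / S) • x (J + j) with hy
    have hyS : y = S⁻¹ • ∑ j ∈ Finset.range J', a' j • x (J + j) := by
      rw [hy, Finset.smul_sum]
      apply Finset.sum_congr rfl
      intro j _
      rw [smul_smul]
      congr 1
      field_simp
    have hpy : p y ≤ ε * (1 / 2 : ℝ) ^ N := by
      rw [hyS, map_smul_eq_mul, Real.norm_eq_abs, abs_of_pos (inv_pos.mpr hS0),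
        inv_mul_le_iff₀ hS0]
      linarith
    have hsumy : ∑ j ∈ Finset.range J', |a' j / S| = 1 := by
      simp_rw [abs_div, abs_of_pos hS0]
      rw [← Finset.sum_div, ← hS, div_self hS0.ne']
    have hny : ∀ n, sn p q n y ≤ 1 := by
      intro n
      refine (sn_le_nrm p q n y).trans ?_
      have := sum_le (nrm p q) J' (fun j => a' j / S) (fun j => x (J + j)) 1 (fun j _ => hx _)
      rw [hsumy, mul_one] at this
      exact this
    refine ⟨J + J', fun j => if j < J then a j else a' (j - J) / S, ?_, ?_⟩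
    · rw [Finset.sum_range_add]
      have e1 : ∑ j ∈ Finset.range J, |if j < J then a j else a' (j - J) / S| =
          ∑ j ∈ Finset.range J, |a j| := by
        apply Finset.sum_congr rfl
        intro j hj
        rw [if_pos (Finset.mem_range.mp hj)]
      have e2 : ∑ j ∈ Finset.range J', |if J + j < J then a (J + j) else a' (J + j - J) / S| =
          ∑ j ∈ Finset.range J', |a' j / S| := by
        apply Finset.sum_congr rfl
        intro j _
        rw [if_neg (by omega), Nat.add_sub_cancel_left]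
      rw [e1, e2, hsum, hsumy]
      push_cast
      ring
    · intro n
      rw [Finset.sum_range_add]
      have e1 : ∑ j ∈ Finset.range J, (if j < J then a j else a' (j - J) / S) • x j = z := by
        rw [hz]
        apply Finset.sum_congr rfl
        intro j hj
        rw [if_pos (Finset.mem_range.mp hj)]
      have e2 : ∑ j ∈ Finset.range J',
          (if J + j < J then a (J + j) else a' (J + j - J) / S) • x (J + j) = y := by
        rw [hy]
        apply Finset.sum_congr rfl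
        intro j _
        rw [if_neg (by omega), Nat.add_sub_cancel_left]
      rw [e1, e2]
      refine (map_add_le_add (sn p q n) z y).trans ?_
      push_cast
      rcases le_total n N with hn | hn
      · have h1 : sn p q n y ≤ ε := by
          refine (sn_le_p p q n y).trans ?_
          have h2 : (2 : ℝ) ^ n ≤ 2 ^ N := pow_le_pow_right₀ (by norm_num) hn
          have h3 := apply_nonneg p y
          calc (2 : ℝ) ^ n * p y ≤ 2 ^ N * p y := mul_le_mul_of_nonneg_right h2 h3
            _ ≤ 2 ^ N * (ε * (1 / 2 : ℝ) ^ N) := mul_le_mul_of_nonneg_left hpy (by positivity)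
            _ = ε * ((2 : ℝ) * (1 / 2)) ^ N := by rw [mul_pow]; ring
            _ = ε := by norm_num
        have h4 := hsn n
        linarith
      · have h1 : sn p q n z ≤ ε := by
          refine (sn_le_q' p q n z).trans ?_
          have h2 : (1 / 2 : ℝ) ^ n ≤ (1 / 2) ^ N :=
            pow_le_pow_of_le_one (by norm_num) (by norm_num) hn
          have h3 := apply_nonneg q z
          exact (mul_le_mul_of_nonneg_right h2 h3).trans hN
        have h4 := hny n
        have h5 : 0 ≤ (R : ℝ) * ε := by positivity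
        linarith

theorem step1 (x : ℕ → V) (c : ℝ) (hc : 0 < c) (hx : ∀ j, nrm p q (x j) ≤ 1)
    (h : ∀ (J : ℕ) (a : ℕ → ℝ), c * ∑ j ∈ Finset.range J, |a j| ≤
      nrm p q (∑ j ∈ Finset.range J, a j • x j)) :
    ∃ c1 : ℝ, 0 < c1 ∧ ∃ j0 : ℕ, ∀ (J : ℕ) (a : ℕ → ℝ),
      c1 * ∑ j ∈ Finset.range J, |a j| ≤ p (∑ j ∈ Finset.range J, a j • x (j0 + j)) := by
  by_contra hcon
  push Not at hcon
  obtain ⟨R, hR⟩ := exists_nat_gt (2 / c)
  obtain ⟨J, a, hsum, hsn⟩ := blocks p q x hx (c / 2) (by positivity) hcon R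
  have h1 := h J a
  rw [hsum] at h1
  have h2 : nrm p q (∑ j ∈ Finset.range J, a j • x j) ≤ 1 + R * (c / 2) := by
    rw [nrm_apply]
    exact ciSup_le hsn
  rw [div_lt_iff₀ hc] at hR
  nlinarith

end Interp

theorem exists_ell1_hull (x : ℕ → V) (c : ℝ) (hc : 0 < c) (hx : ∀ j, nrm p q (x j) ≤ 1)
    (h : ∀ (J : ℕ) (a : ℕ → ℝ), c * ∑ j ∈ Finset.range J, |a j| ≤
      nrm p q (∑ j ∈ Finset.range J, a j • x j)) :
    ∃ (y : ℕ → V) (T c' : ℝ), 0 < c' ∧ (∀ j, q (y j) ≤ T) ∧ ∀ (J : ℕ) (a : ℕ → ℝ),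
      c' * ∑ j ∈ Finset.range J, |a j| ≤ p (∑ j ∈ Finset.range J, a j • y j) := by
  obtain ⟨c1, hc1, j0, h1⟩ := Interp.step1 p q x c hc hx h
  obtain ⟨n, hn⟩ := exists_pow_lt_of_lt_one (show (0 : ℝ) < c1 / 4 by positivity)
    (show (1 / 2 : ℝ) < 1 by norm_num)
  have hex : ∀ j, ∃ y : V, (1 / 2 : ℝ) ^ n * q y + 2 ^ n * p (x (j0 + j) - y) < 2 := by
    intro j
    have h2 : sn p q n (x (j0 + j)) < 2 :=
      lt_of_le_of_lt ((sn_le_nrm p q n _).trans (hx _)) (by norm_num)
    rw [sn_apply] at h2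
    exact exists_lt_of_ciInf_lt h2
  choose y hy using hex
  have h12 : (1 / 2 : ℝ) ^ n * 2 ^ n = 1 := by rw [← mul_pow]; norm_num
  have h2n : (0 : ℝ) < 2 ^ n := by positivity
  have hh : (0 : ℝ) < (1 / 2) ^ n := by positivity
  refine ⟨y, 2 * 2 ^ n, c1 / 2, by positivity, ?_, ?_⟩
  · intro j
    have h3 := hy j
    have h4 := apply_nonneg p (x (j0 + j) - y j)
    have h5 : (1 / 2 : ℝ) ^ n * q (y j) ≤ 2 := by nlinarith
    calc q (y j) = ((1 / 2 : ℝ) ^ n * 2 ^ n) * q (y j) := by rw [h12, one_mul]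
      _ = ((1 / 2 : ℝ) ^ n * q (y j)) * 2 ^ n := by ring
      _ ≤ 2 * 2 ^ n := mul_le_mul_of_nonneg_right h5 h2n.le
  · intro J a
    have hp : ∀ j, p (x (j0 + j) - y j) ≤ c1 / 2 := by
      intro j
      have h3 := hy j
      have h4 := apply_nonneg q (y j)
      have h5 : (2 : ℝ) ^ n * p (x (j0 + j) - y j) ≤ 2 := by nlinarith
      calc p (x (j0 + j) - y j) = ((1 / 2 : ℝ) ^ n * 2 ^ n) * p (x (j0 + j) - y j) := by
            rw [h12, one_mul]
        _ = (1 / 2 : ℝ) ^ n * (2 ^ n * p (x (j0 + j) - y j)) := by ring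
        _ ≤ (1 / 2 : ℝ) ^ n * 2 := mul_le_mul_of_nonneg_left h5 hh.le
        _ ≤ c1 / 2 := by linarith
    have h3 := h1 J a
    have h4 := Interp.sum_le p J a (fun j => x (j0 + j) - y j) (c1 / 2) (fun j _ => hp j)
    have h5 : p (∑ j ∈ Finset.range J, a j • x (j0 + j)) ≤
        p (∑ j ∈ Finset.range J, a j • y j) +
          p (∑ j ∈ Finset.range J, a j • (x (j0 + j) - y j)) := by
      have h6 : ∑ j ∈ Finset.range J, a j • x (j0 + j) =
          ∑ j ∈ Finset.range J, a j • y j +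
            ∑ j ∈ Finset.range J, a j • (x (j0 + j) - y j) := by
        rw [← Finset.sum_add_distrib]
        apply Finset.sum_congr rfl
        intro j _
        rw [← smul_add, add_sub_cancel]
      rw [h6]
      exact map_add_le_add p _ _
    linarith

end

end Pool.Agent.Helper81.Gat
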