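import Pool.Agent.Helper81.Gat.Defs

/-!
MODULE Meas (GAT-7): an `ℓ₁`-sequence of continuous functions on a compact metrizable space is
`c`-separated in `L¹(μ)` for some Borel probability measure `μ`.
-/

set_option autoImplicit false

open Filter Topology Set MeasureTheory
open scoped Pointwise

namespace Pool.Agent.Helper81.Gat

namespace Meas

/-- The sign vector of a finite set. -/
noncomputable def sg (s : Finset ℕ) (i : ℕ) : ℝ := if i ∈ s then 1 else -1

theorem sg_cases (s : Finset ℕ) (i : ℕ) : sg s i = 1 ∨ sg s i = -1 := by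
  unfold sg; split_ifs <;> simp

theorem sg_abs (s : Finset ℕ) (i : ℕ) : |sg s i| = 1 := by
  rcases sg_cases s i with h | h <;> rw [h] <;> norm_num

theorem abs_sg_sub (s : Finset ℕ) (i j : ℕ) : |sg s i - sg s j| = 1 - sg s i * sg s j := by
  rcases sg_cases s i with h | h <;> rcases sg_cases s j with h' | h' <;> rw [h, h'] <;> norm_num

theorem sq_sg_sub (s : Finset ℕ) (i j : ℕ) :
    (sg s i - sg s j) / 2 * (sg s i - sg s j) = |sg s i - sg s j| := by
  rcases sg_cases s i with h | h <;> rcases sg_cases s j with h' | h' <;> rw [h, h'] <;> norm_num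

theorem abs_half_le (s : Finset ℕ) (i j : ℕ) : |(sg s i - sg s j) / 2| ≤ 1 := by
  rcases sg_cases s i with h | h <;> rcases sg_cases s j with h' | h' <;> rw [h, h'] <;> norm_num

theorem sum_mul (J i j : ℕ) (hi : i < J) (hij : i ≠ j) :
    ∑ s ∈ (Finset.range J).powerset, sg s i * sg s j = 0 := by
  have key : ∑ s ∈ (Finset.range J).powerset, sg s i * sg s j =
      ∑ s ∈ (Finset.range J).powerset, -(sg s i * sg s j) := by
    refine Finset.sum_nbij' (fun s => symmDiff s {i}) (fun s => symmDiff s {i}) ?_ ?_ ?_ ?_ ?_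
    · intro s hs
      rw [Finset.mem_powerset] at hs ⊢
      intro a ha
      rw [Finset.mem_symmDiff] at ha
      rcases ha with ha | ha
      · exact hs ha.1
      · rw [Finset.mem_singleton.1 ha.1]; exact Finset.mem_range.2 hi
    · intro s hs
      rw [Finset.mem_powerset] at hs ⊢
      intro a ha
      rw [Finset.mem_symmDiff] at ha
      rcases ha with ha | ha
      · exact hs ha.1
      · rw [Finset.mem_singleton.1 ha.1]; exact Finset.mem_range.2 hi
    · intro s _
      exact symmDiff_symmDiff_cancel_right _ _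
    · intro s _
      exact symmDiff_symmDiff_cancel_right _ _
    · intro s _
      have h1 : sg (symmDiff s {i}) i = - sg s i := by
        unfold sg
        by_cases h : i ∈ s <;> simp [Finset.mem_symmDiff, h]
      have h2 : sg (symmDiff s {i}) j = sg s j := by
        unfold sg
        have : j ≠ i := fun h => hij h.symm
        by_cases h : j ∈ s <;> simp [Finset.mem_symmDiff, h, this]
      rw [h1, h2]; ring
  rw [Finset.sum_neg_distrib] at key
  linarith

theorem sum_abs (J i j : ℕ) (hi : i < J) (hij : i ≠ j) :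
    ∑ s ∈ (Finset.range J).powerset, |sg s i - sg s j| = 2 ^ J := by
  simp only [abs_sg_sub]
  rw [Finset.sum_sub_distrib, sum_mul J i j hi hij]
  simp

theorem exists_sign (J : ℕ) (T : Finset (ℕ × ℕ)) (hT : ∀ p ∈ T, p.1 ≠ p.2 ∧ p.1 < J)
    (l : ℕ × ℕ → ℝ) (hs : ∑ p ∈ T, l p = 1) :
    ∃ s : Finset ℕ, 1 ≤ ∑ p ∈ T, l p * |sg s p.1 - sg s p.2| := by
  have h1 : ∑ s ∈ (Finset.range J).powerset, (1 : ℝ) ≤
      ∑ s ∈ (Finset.range J).powerset, ∑ p ∈ T, l p * |sg s p.1 - sg s p.2| := by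
    rw [Finset.sum_comm]
    have : ∀ p ∈ T, ∑ s ∈ (Finset.range J).powerset, l p * |sg s p.1 - sg s p.2| =
        l p * 2 ^ J := by
      intro p hp
      rw [← Finset.mul_sum, sum_abs J p.1 p.2 (hT p hp).2 (hT p hp).1]
    rw [Finset.sum_congr rfl this, ← Finset.sum_mul, hs]
    simp
  obtain ⟨s, _, hs'⟩ := Finset.exists_le_of_sum_le ⟨∅, by simp⟩ h1
  exact ⟨s, hs'⟩

theorem comb {Ω : Type*} [TopologicalSpace Ω] [CompactSpace Ω] [Nonempty Ω]
    (f : ℕ → C(Ω, ℝ)) (c : ℝ) (hc : 0 < c) (h : ∀ (J : ℕ) (a : ℕ → ℝ),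
      c * ∑ j ∈ Finset.range J, |a j| ≤ ‖∑ j ∈ Finset.range J, a j • f j‖)
    (T : Finset (ℕ × ℕ)) (hT : ∀ p ∈ T, p.1 ≠ p.2) (l : ℕ × ℕ → ℝ) (hl : ∀ p ∈ T, 0 ≤ l p)
    (hs : ∑ p ∈ T, l p = 1) : ∃ x, c ≤ ∑ p ∈ T, l p * |f p.1 x - f p.2 x| := by
  classical
  set J : ℕ := T.sup (fun p => max p.1 p.2) + 1 with hJ
  have hJ1 : ∀ p ∈ T, p.1 < J ∧ p.2 < J := by
    intro p hp
    have : max p.1 p.2 ≤ T.sup (fun p => max p.1 p.2) :=
      Finset.le_sup (f := fun p : ℕ × ℕ => max p.1 p.2) hp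
    constructor
    · exact Nat.lt_succ_of_le ((le_max_left _ _).trans this)
    · exact Nat.lt_succ_of_le ((le_max_right _ _).trans this)
  obtain ⟨s, hs1⟩ := exists_sign J T (fun p hp => ⟨hT p hp, (hJ1 p hp).1⟩) l hs
  set w : ℕ × ℕ → ℝ := fun p => l p * ((sg s p.1 - sg s p.2) / 2) with hw
  set a : ℕ → ℝ := fun k => ∑ p ∈ T, w p * ((if p.1 = k then 1 else 0) -
    (if p.2 = k then 1 else 0)) with ha
  -- pairing with a vector
  have hpair : ∀ v : ℕ → ℝ, ∑ k ∈ Finset.range J, a k * v k =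
      ∑ p ∈ T, w p * (v p.1 - v p.2) := by
    intro v
    simp only [ha, Finset.sum_mul]
    rw [Finset.sum_comm]
    refine Finset.sum_congr rfl fun p hp => ?_
    have e1 : ∑ k ∈ Finset.range J, (if p.1 = k then (1:ℝ) else 0) * v k = v p.1 := by
      simp [Finset.sum_ite_eq, (hJ1 p hp).1]
    have e2 : ∑ k ∈ Finset.range J, (if p.2 = k then (1:ℝ) else 0) * v k = v p.2 := by
      simp [Finset.sum_ite_eq, (hJ1 p hp).2]
    calc ∑ k ∈ Finset.range J, w p * ((if p.1 = k then (1:ℝ) else 0) -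
          (if p.2 = k then 1 else 0)) * v k
        = w p * (∑ k ∈ Finset.range J, (if p.1 = k then (1:ℝ) else 0) * v k -
            ∑ k ∈ Finset.range J, (if p.2 = k then (1:ℝ) else 0) * v k) := by
          rw [← Finset.sum_sub_distrib, Finset.mul_sum]
          refine Finset.sum_congr rfl fun k _ => ?_
          ring
      _ = w p * (v p.1 - v p.2) := by rw [e1, e2]
  have hA : 1 ≤ ∑ k ∈ Finset.range J, |a k| := by
    calc (1:ℝ) ≤ ∑ p ∈ T, l p * |sg s p.1 - sg s p.2| := hs1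
      _ = ∑ p ∈ T, w p * (sg s p.1 - sg s p.2) := by
          refine Finset.sum_congr rfl fun p _ => ?_
          rw [← sq_sg_sub s p.1 p.2, hw]; ring
      _ = ∑ k ∈ Finset.range J, a k * sg s k := (hpair (sg s)).symm
      _ ≤ ∑ k ∈ Finset.range J, |a k| := by
          refine Finset.sum_le_sum fun k _ => ?_
          calc a k * sg s k ≤ |a k * sg s k| := le_abs_self _
            _ = |a k| := by rw [abs_mul, sg_abs, mul_one]
  have hn : c ≤ ‖∑ k ∈ Finset.range J, a k • f k‖ := by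
    refine le_trans ?_ (h J a)
    nlinarith
  set F : C(Ω, ℝ) := ∑ k ∈ Finset.range J, a k • f k with hF
  obtain ⟨x, -, hx⟩ := isCompact_univ.exists_isMaxOn (univ_nonempty (α := Ω))
    (F.continuous.norm).continuousOn
  refine ⟨x, ?_⟩
  have h1 : ‖F‖ ≤ ‖F x‖ := by
    rw [ContinuousMap.norm_le _ (norm_nonneg _)]
    intro y
    exact hx (mem_univ y)
  have h2 : F x = ∑ p ∈ T, w p * (f p.1 x - f p.2 x) := by
    rw [hF]
    simp only [ContinuousMap.coe_sum, Finset.sum_apply, ContinuousMap.coe_smul, Pi.smul_apply,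
      smul_eq_mul]
    exact hpair (fun k => f k x)
  calc c ≤ ‖F x‖ := hn.trans h1
    _ = |∑ p ∈ T, w p * (f p.1 x - f p.2 x)| := by rw [h2, Real.norm_eq_abs]
    _ ≤ ∑ p ∈ T, |w p * (f p.1 x - f p.2 x)| := Finset.abs_sum_le_sum_abs _ _
    _ ≤ ∑ p ∈ T, l p * |f p.1 x - f p.2 x| := by
        refine Finset.sum_le_sum fun p hp => ?_
        rw [abs_mul, hw]
        refine mul_le_mul_of_nonneg_right ?_ (abs_nonneg _)
        rw [abs_mul, abs_of_nonneg (hl p hp)]
        calc l p * |(sg s p.1 - sg s p.2) / 2| ≤ l p * 1 :=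
              mul_le_mul_of_nonneg_left (abs_half_le s p.1 p.2) (hl p hp)
          _ = l p := mul_one _

section
set_option linter.unusedSectionVars false

variable {Ω : Type*} [TopologicalSpace Ω] [CompactSpace Ω]
    [TopologicalSpace.MetrizableSpace Ω] [MeasurableSpace Ω] [BorelSpace Ω]

/-- The function `|f i - f j|`. -/
noncomputable def gg (f : ℕ → C(Ω, ℝ)) (p : ℕ × ℕ) : BoundedContinuousFunction Ω ℝ :=
  BoundedContinuousFunction.mkOfCompact ⟨fun x => |f p.1 x - f p.2 x|, by fun_prop⟩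

theorem gg_apply (f : ℕ → C(Ω, ℝ)) (p : ℕ × ℕ) (x : Ω) : gg f p x = |f p.1 x - f p.2 x| := rfl

theorem cont (f : ℕ → C(Ω, ℝ)) (p : ℕ × ℕ) :
    Continuous (fun μ : ProbabilityMeasure Ω => ∫ x, gg f p x ∂(μ : Measure Ω)) :=
  ProbabilityMeasure.continuous_integral_boundedContinuousFunction (gg f p)

theorem exists_mix (μ ν : ProbabilityMeasure Ω) (a b : ℝ) (ha : 0 ≤ a) (hb : 0 ≤ b)
    (hab : a + b = 1) : ∃ ρ : ProbabilityMeasure Ω, ∀ g : BoundedContinuousFunction Ω ℝ,
      ∫ x, g x ∂(ρ : Measure Ω) = a * ∫ x, g x ∂(μ : Measure Ω) + b * ∫ x, g x ∂(ν : Measure Ω) := by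
  set r : Measure Ω := ENNReal.ofReal a • (μ : Measure Ω) + ENNReal.ofReal b • (ν : Measure Ω)
    with hr
  have hp : IsProbabilityMeasure r := by
    constructor
    rw [hr]
    simp only [Measure.coe_add, Measure.coe_smul, Pi.add_apply, Pi.smul_apply, measure_univ,
      smul_eq_mul, mul_one]
    rw [← ENNReal.ofReal_add ha hb, hab, ENNReal.ofReal_one]
  refine ⟨⟨r, hp⟩, fun g => ?_⟩
  change ∫ x, g x ∂r = _
  rw [hr, integral_add_measure, integral_smul_measure, integral_smul_measure,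
    ENNReal.toReal_ofReal ha, ENNReal.toReal_ofReal hb, smul_eq_mul, smul_eq_mul]
  · exact (g.integrable _).smul_measure ENNReal.ofReal_ne_top
  · exact (g.integrable _).smul_measure ENNReal.ofReal_ne_top

theorem finite_case [Nonempty Ω] (f : ℕ → C(Ω, ℝ)) (c : ℝ) (hc : 0 < c)
    (h : ∀ (J : ℕ) (a : ℕ → ℝ),
      c * ∑ j ∈ Finset.range J, |a j| ≤ ‖∑ j ∈ Finset.range J, a j • f j‖)
    (T : Finset (ℕ × ℕ)) (hT : ∀ p ∈ T, p.1 ≠ p.2) :
    ∃ μ : ProbabilityMeasure Ω, ∀ p ∈ T, c ≤ ∫ x, gg f p x ∂(μ : Measure Ω) := by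
  classical
  by_contra hcon
  set Φ : ProbabilityMeasure Ω → (T → ℝ) := fun μ p => ∫ x, gg f (p : ℕ × ℕ) x ∂(μ : Measure Ω)
    with hΦ
  have hΦc : Continuous Φ := continuous_pi fun p => cont f p
  have hM : IsCompact (range Φ) := isCompact_range hΦc
  have hMc : Convex ℝ (range Φ) := by
    rintro _ ⟨μ, rfl⟩ _ ⟨ν, rfl⟩ a b ha hb hab
    obtain ⟨ρ, hρ⟩ := exists_mix μ ν a b ha hb hab
    refine ⟨ρ, ?_⟩
    funext p
    simp only [hΦ, hρ, Pi.add_apply, Pi.smul_apply, smul_eq_mul]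
  have hdisj : Disjoint (range Φ) (Ici (fun _ : T => c)) := by
    rw [Set.disjoint_left]
    rintro _ ⟨μ, rfl⟩ hμ
    apply hcon
    exact ⟨μ, fun p hp => hμ ⟨p, hp⟩⟩
  obtain ⟨F, u, v, hFu, huv, hFv⟩ := geometric_hahn_banach_compact_closed hMc hM
    (convex_Ici _) isClosed_Ici hdisj
  have hFe : ∀ w : T → ℝ, F w = ∑ p : T, F (Pi.single p 1) * w p := by
    intro w
    have hw : w = ∑ p : T, w p • (Pi.single p (1:ℝ) : T → ℝ) := by
      funext q
      simp [Finset.sum_apply, Pi.single_apply]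
    conv_lhs => rw [hw]
    rw [map_sum]
    refine Finset.sum_congr rfl fun p _ => ?_
    rw [map_smul, smul_eq_mul, mul_comm]
  have hl0 : ∀ p : T, 0 ≤ F (Pi.single p 1) := by
    intro p
    by_contra hneg
    push Not at hneg
    set t : ℝ := (F (fun _ => c) - v) / (-(F (Pi.single p 1))) with ht
    have hv0 : v < F (fun _ => c) := hFv _ (mem_Ici.2 le_rfl)
    have htp : 0 ≤ t := div_nonneg (by linarith) (by linarith)
    have hmem : (fun _ : T => c) + t • (Pi.single p (1:ℝ)) ∈ Ici (fun _ : T => c) := by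
      intro q
      simp only [Pi.add_apply, Pi.smul_apply, smul_eq_mul]
      have : 0 ≤ (Pi.single p (1:ℝ) : T → ℝ) q := by
        by_cases hq : q = p
        · subst hq; simp
        · simp [Pi.single_apply, hq]
      nlinarith
    have h1 := hFv _ hmem
    rw [map_add, map_smul, smul_eq_mul] at h1
    have h2 : t * F (Pi.single p 1) = -(F (fun _ => c) - v) := by
      have hne : -(F (Pi.single p 1)) ≠ 0 := by linarith
      have := div_mul_cancel₀ (F (fun _ => c) - v) hne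
      rw [ht]; linarith
    linarith
  set Λ : ℝ := ∑ p : T, F (Pi.single p 1) with hΛ
  have hΛ0 : 0 ≤ Λ := Finset.sum_nonneg fun p _ => hl0 p
  obtain ⟨x0⟩ := (inferInstance : Nonempty Ω)
  have hdirac : ∀ x : Ω, ∑ p : T, F (Pi.single p 1) * gg f p x < u := by
    intro x
    have h1 := hFu (Φ ⟨Measure.dirac x, inferInstance⟩) ⟨_, rfl⟩
    rw [hFe] at h1
    refine lt_of_eq_of_lt (Finset.sum_congr rfl fun p _ => ?_) h1
    congr 1
    change _ = ∫ y, gg f p y ∂(Measure.dirac x)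
    rw [integral_dirac' _ _ ((gg f p).continuous.stronglyMeasurable)]
  have hvc : v < Λ * c := by
    have h1 := hFv (fun _ => c) (mem_Ici.2 le_rfl)
    rw [hFe, ← Finset.sum_mul] at h1
    exact h1
  rcases hΛ0.lt_or_eq with hpos | hzero
  · set l : ℕ × ℕ → ℝ := fun p => if hp : p ∈ T then F (Pi.single ⟨p, hp⟩ 1) / Λ else 0 with hl
    have hsum : ∀ G : ℕ × ℕ → ℝ, ∑ p ∈ T, l p * G p = (∑ p : T, F (Pi.single p 1) * G p) / Λ := by
      intro G
      rw [Finset.sum_div, ← Finset.sum_coe_sort T]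
      refine Finset.sum_congr rfl fun p _ => ?_
      have hp : (p : ℕ × ℕ) ∈ T := p.2
      simp only [hl, dif_pos hp, Subtype.coe_eta]
      ring
    obtain ⟨x, hx⟩ := comb f c hc h T hT l (by
      intro p hp
      simp only [hl, hp, dif_pos]
      exact div_nonneg (hl0 _) hΛ0) (by
      have := hsum (fun _ => 1)
      simp only [mul_one] at this
      rw [this, ← hΛ]
      exact div_self hpos.ne')
    have hx' : c ≤ (∑ p : T, F (Pi.single p 1) * gg f p x) / Λ := by
      rw [← hsum (fun p => gg f p x)]; exact hx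
    rw [le_div_iff₀ hpos] at hx'
    have := hdirac x
    nlinarith
  · have hz : ∀ p : T, F (Pi.single p 1) = 0 := by
      have h1 : ∑ p : T, F (Pi.single p 1) = 0 := by rw [← hΛ, ← hzero]
      rw [Finset.sum_eq_zero_iff_of_nonneg (fun p _ => hl0 p)] at h1
      exact fun p => h1 p (Finset.mem_univ p)
    have h1 := hdirac x0
    simp only [hz, zero_mul, Finset.sum_const_zero] at h1
    rw [← hzero, zero_mul] at hvc
    linarith

end

end Meas

theorem exists_measure {Ω : Type*} [TopologicalSpace Ω] [CompactSpace Ω]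
    [TopologicalSpace.MetrizableSpace Ω] [MeasurableSpace Ω] [BorelSpace Ω] (f : ℕ → C(Ω, ℝ))
    (c : ℝ) (hc : 0 < c) (h : ∀ (J : ℕ) (a : ℕ → ℝ),
      c * ∑ j ∈ Finset.range J, |a j| ≤ ‖∑ j ∈ Finset.range J, a j • f j‖) :
    ∃ μ : MeasureTheory.Measure Ω, MeasureTheory.IsProbabilityMeasure μ ∧
      ∀ i j, i ≠ j → c ≤ ∫ x, |f i x - f j x| ∂μ := by
  classical
  have hne : Nonempty Ω := by
    by_contra hemp
    rw [not_nonempty_iff] at hemp
    have h1 := h 1 (fun _ => 1)
    have h2 : ‖∑ j ∈ Finset.range 1, (1:ℝ) • f j‖ ≤ 0 := by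
      rw [ContinuousMap.norm_le _ le_rfl]
      intro x
      exact (hemp.false x).elim
    simp only [Finset.range_one, Finset.sum_singleton, abs_one, mul_one] at h1 h2
    linarith
  set ι := {p : ℕ × ℕ // p.1 ≠ p.2}
  have hcl : ∀ p : ι, IsClosed {μ : ProbabilityMeasure Ω |
      c ≤ ∫ x, Meas.gg f p.1 x ∂(μ : Measure Ω)} :=
    fun p => isClosed_le continuous_const (Meas.cont f p.1)
  obtain ⟨μ, -, hμ⟩ := (isCompact_univ (X := ProbabilityMeasure Ω)).inter_iInter_nonempty
    (fun p : ι => {μ : ProbabilityMeasure Ω | c ≤ ∫ x, Meas.gg f p.1 x ∂(μ : Measure Ω)}) hcl (by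
      intro u
      obtain ⟨μ, hμ⟩ := Meas.finite_case f c hc h (u.image Subtype.val) (by
        intro p hp
        rw [Finset.mem_image] at hp
        obtain ⟨q, _, rfl⟩ := hp
        exact q.2)
      refine ⟨μ, mem_univ _, ?_⟩
      rw [mem_iInter₂]
      intro p hp
      exact hμ p.1 (Finset.mem_image_of_mem _ hp))
  refine ⟨(μ : Measure Ω), inferInstance, fun i j hij => ?_⟩
  rw [mem_iInter] at hμ
  exact hμ ⟨(i, j), hij⟩

end Pool.Agent.Helper81.Gat
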