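import Pool.Agent.Helper81.Gat.Defs

/-!
Continuous functionals on the space of all sequences, and decomposition of a point of a compact
convex set with respect to another one.
-/

set_option autoImplicit false

open Filter Topology Set
open scoped Pointwise

namespace Pool.Agent.Helper81.Gat

theorem exists_pr (f : (ℕ → ℝ) →L[ℝ] ℝ) : ∃ x : ℕ →₀ ℝ, ∀ k, f k = pr k x := by
  classical
  have h1 : f ⁻¹' Metric.ball 0 1 ∈ 𝓝 (0 : ℕ → ℝ) := by
    apply f.continuous.continuousAt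
    rw [map_zero]
    exact Metric.ball_mem_nhds _ one_pos
  rw [nhds_pi, Filter.mem_pi] at h1
  obtain ⟨I, hI, t, ht, hsub⟩ := h1
  have hzero : ∀ k : ℕ → ℝ, (∀ i ∈ I, k i = 0) → f k = 0 := by
    intro k hk
    by_contra hne
    have h2 : ((f k)⁻¹ • k) ∈ f ⁻¹' Metric.ball 0 1 := by
      apply hsub
      intro i hi
      have : ((f k)⁻¹ • k) i = (0 : ℕ → ℝ) i := by simp [hk i hi]
      rw [this]
      exact mem_of_mem_nhds (ht i)
    rw [Set.mem_preimage, map_smul, smul_eq_mul, inv_mul_cancel₀ hne] at h2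
    simp at h2
  refine ⟨Finsupp.onFinset hI.toFinset (fun i => if i ∈ I then f (Pi.single i 1) else 0) ?_, ?_⟩
  · intro i hi
    rw [Set.Finite.mem_toFinset]
    by_contra h
    exact hi (if_neg h)
  · intro k
    rw [pr, Finsupp.onFinset_sum _ (fun a => by rw [zero_mul])]
    have h3 : f (k - ∑ i ∈ hI.toFinset, k i • (Pi.single i 1 : ℕ → ℝ)) = 0 := by
      apply hzero
      intro j hj
      rw [Pi.sub_apply, Finset.sum_apply, Finset.sum_eq_single j]
      · simp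
      · intro i _ hij
        simp [Ne.symm hij]
      · intro h
        exact absurd ((Set.Finite.mem_toFinset hI).2 hj) h
    rw [map_sub, sub_eq_zero] at h3
    rw [h3, map_sum]
    refine Finset.sum_congr rfl fun i hi => ?_
    rw [if_pos ((Set.Finite.mem_toFinset hI).1 hi), map_smul, smul_eq_mul, mul_comm]

theorem decomp (K : Set (ℕ → ℝ)) (hK : IsCompact K) (hc : Convex ℝ K) (k g : ℕ → ℝ)
    (hk : k ∈ K) (hg : g ∈ K) : g = k ∨ ∃ (M : ℝ) (h : ℕ → ℝ), 0 ≤ M ∧ M ≤ 1 ∧ h ∈ K ∧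
      g = M • k + (1 - M) • h ∧ ∀ ε : ℝ, 0 < ε → ∃ (α : ℝ) (x : ℕ →₀ ℝ),
        (∀ g' ∈ K, 0 ≤ α + pr g' x) ∧ 1 < α + pr k x ∧ α + pr h x < ε := by
  by_cases hgk : g = k
  · exact Or.inl hgk
  right
  -- the maximal coefficient
  have hcomp : IsCompact ((Icc (0 : ℝ) 1 ×ˢ K) ∩ {z | g = z.1 • k + (1 - z.1) • z.2}) := by
    apply (isCompact_Icc.prod hK).inter_right
    apply isClosed_eq continuous_const
    fun_prop
  have hne : ((Icc (0 : ℝ) 1 ×ˢ K) ∩ {z | g = z.1 • k + (1 - z.1) • z.2}).Nonempty :=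
    ⟨(0, g), ⟨⟨⟨le_rfl, zero_le_one⟩, hg⟩, by simp⟩⟩
  obtain ⟨⟨M, h⟩, ⟨⟨⟨hM0, hM1⟩, hh⟩, hgM⟩, hmax⟩ :=
    hcomp.exists_isMaxOn hne (f := fun z => z.1) (by fun_prop)
  simp only at hM0 hM1 hh
  replace hgM : g = M • k + (1 - M) • h := hgM
  have hMlt : M < 1 := by
    apply lt_of_le_of_ne hM1
    rintro rfl
    apply hgk
    rw [hgM]
    simp
  refine ⟨M, h, hM0, hM1, hh, hgM, ?_⟩
  intro ε hε
  set e : ℝ := min (ε / 2) (1 / 2) with he
  have he0 : 0 < e := lt_min (by linarith) (by norm_num)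
  have he1 : e ≤ 1 / 2 := min_le_right _ _
  have heε : 2 * e ≤ ε := by
    have := min_le_left (ε / 2) (1 / 2)
    rw [← he] at this
    linarith
  have hCc : IsCompact ((fun h' : ℕ → ℝ => e • k + (1 - e) • h') '' K) :=
    hK.image (by fun_prop)
  have hCconv : Convex ℝ ((fun h' : ℕ → ℝ => e • k + (1 - e) • h') '' K) := by
    rintro _ ⟨a, ha, rfl⟩ _ ⟨b, hb, rfl⟩ s t hs ht hst
    refine ⟨s • a + t • b, hc ha hb hs ht hst, ?_⟩
    have hk' : e • k = s • (e • k) + t • (e • k) := by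
      rw [← add_smul, hst, one_smul]
    simp only
    rw [hk']
    ext i
    simp only [Pi.add_apply, Pi.smul_apply, smul_eq_mul]
    have : s = 1 - t := by linarith
    subst this
    ring
  have hnot : h ∉ (fun h' : ℕ → ℝ => e • k + (1 - e) • h') '' K := by
    rintro ⟨h', hh', hhh⟩
    have h1 : ((M + (1 - M) * e, h') : ℝ × (ℕ → ℝ)) ∈
        ((Icc (0 : ℝ) 1 ×ˢ K) ∩ {z | g = z.1 • k + (1 - z.1) • z.2}) := by
      refine ⟨⟨⟨?_, ?_⟩, hh'⟩, ?_⟩
      · have : 0 ≤ (1 - M) * e := by nlinarith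
        simpa using add_nonneg hM0 this
      · change M + (1 - M) * e ≤ 1
        nlinarith
      · change g = (M + (1 - M) * e) • k + (1 - (M + (1 - M) * e)) • h'
        rw [hgM, ← hhh]
        ext i
        simp only [Pi.add_apply, Pi.smul_apply, smul_eq_mul]
        ring
    have h2 := hmax h1
    simp only [Set.mem_ofPred_eq] at h2
    nlinarith
  obtain ⟨f, u, hf1, hf2⟩ := geometric_hahn_banach_closed_point hCconv hCc.isClosed hnot
  obtain ⟨h₀, hh₀, hmax₀⟩ := hK.exists_isMaxOn ⟨k, hk⟩ f.continuous.continuousOn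
  have hs : ∀ g' ∈ K, f g' ≤ f h₀ := fun g' hg' => hmax₀ hg'
  have h3 : e * f k + (1 - e) * f h₀ < u := by
    have := hf1 _ ⟨h₀, hh₀, rfl⟩
    simpa using this
  have h4 : f h₀ - f h < e * (f h₀ - f k) := by linarith
  have h5 : 0 ≤ f h₀ - f h := by linarith [hs h hh]
  have h6 : 0 < f h₀ - f k := by
    by_contra hcon
    push Not at hcon
    nlinarith
  obtain ⟨x, hx⟩ := exists_pr ((-(2 / (f h₀ - f k))) • f)
  have hval : ∀ g', 2 * f h₀ / (f h₀ - f k) + pr g' x = 2 * (f h₀ - f g') / (f h₀ - f k) := by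
    intro g'
    rw [← hx]
    simp only [_root_.smul_apply, smul_eq_mul]
    ring
  refine ⟨2 * f h₀ / (f h₀ - f k), x, ?_, ?_, ?_⟩
  · intro g' hg'
    rw [hval]
    have := hs g' hg'
    apply div_nonneg _ h6.le
    linarith
  · rw [hval, lt_div_iff₀ h6]
    linarith
  · rw [hval, div_lt_iff₀ h6]
    nlinarith

end Pool.Agent.Helper81.Gat
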