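import Pool.Agent.Helper81.Gat.Defs
import Pool.Agent.Helper81.Gat.Basic
import Pool.Agent.Helper81.Gat.Bound
import Pool.Agent.Helper81.Gat.Separate

set_option autoImplicit false

open Filter Topology Set
open scoped Pointwise

namespace Pool.Agent.Helper81.Gat

namespace Precomp

theorem pr_zero_right (g : ℕ → ℝ) : pr g 0 = 0 := by
  simp [pr]

theorem pr_eq_sum (g : ℕ → ℝ) (x : ℕ →₀ ℝ) : pr g x = ∑ i ∈ x.support, x i * g i := rfl

theorem pr_add_right (g : ℕ → ℝ) (x y : ℕ →₀ ℝ) : pr g (x + y) = pr g x + pr g y := by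
  unfold pr
  exact Finsupp.sum_add_index' (fun i => by simp) (fun i a b => by ring)

theorem pr_single (g : ℕ → ℝ) (i : ℕ) : pr g (Finsupp.single i 1) = g i := by
  unfold pr
  rw [Finsupp.sum_single_index (by simp), one_mul]

theorem pr_wv (g : ℕ → ℝ) (A : Finset ℕ) : pr g (wv A) = ∑ i ∈ A, g i := by
  unfold wv
  induction A using Finset.induction_on with
  | empty => simp [pr_zero_right]
  | insert a s ha ih =>
    rw [Finset.sum_insert ha, Finset.sum_insert ha, pr_add_right, pr_single, ih]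

theorem pr_comb (M : ℝ) (k h : ℕ → ℝ) (x : ℕ →₀ ℝ) :
    pr (M • k + (1 - M) • h) x = M * pr k x + (1 - M) * pr h x := by
  simp only [pr_eq_sum, Finset.mul_sum, ← Finset.sum_add_distrib]
  refine Finset.sum_congr rfl fun i _ => ?_
  simp only [Pi.add_apply, Pi.smul_apply, smul_eq_mul]
  ring

theorem pr_tendsto {u : ℕ → ℕ → ℝ} {k : ℕ → ℝ} (x : ℕ →₀ ℝ)
    (hu : ∀ j, Tendsto (fun n => u n j) atTop (𝓝 (k j))) :
    Tendsto (fun n => pr (u n) x) atTop (𝓝 (pr k x)) := by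
  simp only [pr_eq_sum]
  exact tendsto_finsetSum _ fun i _ => (hu i).const_mul _

theorem good_filter {c : ℕ → ℕ → ℝ} {A : Finset ℕ} (hA : Good c A) (P : ℕ → Prop)
    [DecidablePred P] : Good c (A.filter P) := by
  intro i hi
  rw [Finset.mem_filter] at hi
  refine le_trans (Finset.sum_le_sum_of_subset_of_nonneg ?_ ?_) (hA i hi.1)
  · intro i' hi'
    simp only [Finset.mem_filter] at hi' ⊢
    exact ⟨hi'.1.1, hi'.2⟩
  · intro _ _ _; exact abs_nonneg _

theorem bound_two {c : ℕ → ℕ → ℝ} {N : ℕ → ℕ} (h : Tower c N) (A : Finset ℕ) (hA : Good c A)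
    (g : ℕ → ℝ) (hg : g ∈ Kinf c) : |pr g (wv A)| ≤ 2 := by
  have := h.bound A hA 1 0 0 (by simp) (by simp) (by intro g _; simp [pr_zero_right])
    (by intro i _; simp [pr_zero_right]) g hg
  simpa [pr_zero_right] using this

theorem split (g : ℕ → ℝ) (A : Finset ℕ) (L : ℕ) :
    pr g (wv A) = ∑ i ∈ (Finset.range L).filter (fun i => i ∈ A), g i
      + pr g (wv (A.filter (fun i => L ≤ i))) := by
  rw [pr_wv, pr_wv, ← Finset.sum_filter_add_sum_filter_not A (fun i => i < L)]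
  congr 1
  · refine Finset.sum_congr ?_ fun _ _ => rfl
    ext i
    simp [and_comm]
  · refine Finset.sum_congr ?_ fun _ _ => rfl
    ext i
    simp

/-- Closeness of the centres in the tail. -/
theorem tail_close {c : ℕ → ℕ → ℝ} {N : ℕ → ℕ} (h : Tower c N) (x : ℕ →₀ ℝ) (δ : ℝ) (hδ : 0 < δ) :
    ∃ L J : ℕ, J ≤ L ∧ (∀ j ∈ x.support, j < J) ∧ ∀ (A : Finset ℕ) (k : ℕ → ℝ), Coh c N A k →
      ∀ i ∈ A, L ≤ i → |pr (c i) x - pr k x| ≤ δ := by
  obtain ⟨J, hJ⟩ : ∃ J, ∀ j ∈ x.support, j < J := by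
    obtain ⟨b, hb⟩ := x.support.bddAbove
    exact ⟨b + 1, fun j hj => Nat.lt_succ_of_le (hb hj)⟩
  set S := ∑ j ∈ x.support, |x j| with hS
  have hS0 : 0 ≤ S := Finset.sum_nonneg fun _ _ => abs_nonneg _
  have hlim : Tendsto (fun m : ℕ => S * (1 / 2 : ℝ) ^ m) atTop (𝓝 (S * 0)) :=
    (tendsto_pow_atTop_nhds_zero_of_lt_one (by norm_num) (by norm_num)).const_mul S
  rw [mul_zero] at hlim
  obtain ⟨m0, hm0⟩ := (hlim.eventually (gt_mem_nhds hδ)).exists_forall_of_atTop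
  set m := max m0 J with hm
  have hNm : m ≤ N m := h.mono.id_le m
  have hJN : J ≤ N m := le_trans (le_max_right _ _) hNm
  refine ⟨N m, J, hJN, hJ, fun A k hk i hi hL => ?_⟩
  rw [pr_eq_sum, pr_eq_sum, ← Finset.sum_sub_distrib]
  refine le_trans (Finset.abs_sum_le_sum_abs _ _) ?_
  refine le_trans (Finset.sum_le_sum (g := fun j => |x j| * (1 / 2 : ℝ) ^ m) fun j hj => ?_) ?_
  · rw [← mul_sub, abs_mul]
    refine mul_le_mul_of_nonneg_left ?_ (abs_nonneg _)
    exact hk i hi m hL j (lt_of_lt_of_le (hJ j hj) hJN)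
  · rw [← Finset.sum_mul]
    exact (hm0 m (le_max_left _ _)).le

theorem main {c : ℕ → ℕ → ℝ} {N : ℕ → ℕ} (h : Tower c N) (A : ℕ → Finset ℕ) (kk : ℕ → ℕ → ℝ)
    (hG : ∀ n, Good c (A n)) (hC : ∀ n, Coh c N (A n) (kk n)) (k : ℕ → ℝ) (hk : k ∈ Kinf c)
    (hkk : ∀ j, Tendsto (fun n => kk n j) atTop (𝓝 (k j)))
    (hA : ∀ i, ∃ b : Bool, ∀ᶠ n in atTop, decide (i ∈ A n) = b)
    (l : ℝ) (hl : Tendsto (fun n => pr k (wv (A n))) atTop (𝓝 l)) (g : ℕ → ℝ) (hg : g ∈ Kinf c) :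
    ∃ l, Tendsto (fun n => pr g (wv (A n))) atTop (𝓝 l) := by
  rcases decomp (Kinf c) h.isCompact (convex_Kinf c) k g hk hg with rfl | ⟨M, f, -, -, hf, hgf, hdec⟩
  · exact ⟨l, hl⟩
  suffices hcau : CauchySeq fun n => pr f (wv (A n)) by
    obtain ⟨l', hl'⟩ := cauchySeq_tendsto_of_complete hcau
    refine ⟨M * l + (1 - M) * l', ?_⟩
    have : (fun n => pr g (wv (A n))) = fun n => M * pr k (wv (A n)) + (1 - M) * pr f (wv (A n)) := by
      funext n
      rw [hgf, pr_comb]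
    rw [this]
    exact (hl.const_mul M).add (hl'.const_mul (1 - M))
  rw [Metric.cauchySeq_iff]
  intro ε hε
  obtain ⟨α, x, hpos, hone, hsmall⟩ := hdec (ε / 8) (by positivity)
  set δ := α + pr k x - 1 with hδ
  have hδ0 : 0 < δ := by linarith
  obtain ⟨L, J, hJL, hJ, hL⟩ := tail_close h x (δ / 2) (by linarith)
  -- eventual constancy
  choose b hb using hA
  have h1 : ∀ᶠ n in atTop, ∀ i ∈ Finset.range L, decide (i ∈ A n) = b i :=
    (Finset.eventually_all _).2 fun i _ => hb i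
  have h2 : ∀ᶠ n in atTop, |pr (kk n) x - pr k x| < δ / 2 := by
    have := pr_tendsto x hkk
    have := (Metric.tendsto_nhds.1 this) (δ / 2) (by linarith)
    filter_upwards [this] with n hn
    rwa [Real.dist_eq] at hn
  obtain ⟨n0, hn0⟩ := (h1.and h2).exists_forall_of_atTop
  have key : ∀ n ≥ n0, pr f (wv (A n)) = ∑ i ∈ (Finset.range L).filter (fun i => b i = true), f i
      + pr f (wv ((A n).filter (fun i => L ≤ i))) ∧
      |pr f (wv ((A n).filter (fun i => L ≤ i)))| ≤ ε / 4 := by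
    intro n hn
    obtain ⟨hn1, hn2⟩ := hn0 n hn
    constructor
    · rw [split f (A n) L]
      congr 1
      refine Finset.sum_congr ?_ fun _ _ => rfl
      ext i
      simp only [Finset.mem_filter]
      refine and_congr_right fun hi => ?_
      rw [← hn1 i hi]
      simp
    · have := h.bound ((A n).filter (fun i => L ≤ i)) (good_filter (hG n) _) α x J hJ
        (fun i hi => le_trans hJL (Finset.mem_filter.1 hi).2) hpos ?_ f hf
      · linarith
      · intro i hi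
        rw [Finset.mem_filter] at hi
        have h3 := hL (A n) (kk n) (hC n) i hi.1 hi.2
        have h4 := abs_le.1 h3
        have h5 := abs_lt.1 hn2
        linarith [h4.1, h5.1]
  refine ⟨n0, fun m hm n hn => ?_⟩
  obtain ⟨hm1, hm2⟩ := key m hm
  obtain ⟨hn1, hn2⟩ := key n hn
  rw [Real.dist_eq, hm1, hn1]
  have h6 := abs_le.1 hm2
  have h7 := abs_le.1 hn2
  rw [abs_lt]
  constructor <;> linarith [h6.1, h6.2, h7.1, h7.2]

end Precomp

open Precomp

theorem Tower.precomp {c : ℕ → ℕ → ℝ} {N : ℕ → ℕ} (h : Tower c N) (w : ℕ → (ℕ →₀ ℝ))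
    (hw : ∀ n, w n ∈ WW c N) : ∃ φ : ℕ → ℕ, StrictMono φ ∧
      ∀ g ∈ Kinf c, ∃ l, Tendsto (fun n => pr g (w (φ n))) atTop (𝓝 l) := by
  choose A kk hkk hG hC hwA using hw
  -- first extraction
  have hcomp : IsCompact ((Kinf c) ×ˢ (univ : Set (ℕ → Bool))) :=
    h.isCompact.prod isCompact_univ
  obtain ⟨⟨k, B⟩, hkB, φ, hφ, hlim⟩ := hcomp.tendsto_subseq
    (x := fun n => (kk n, fun i => decide (i ∈ A n))) (fun n => ⟨hkk n, mem_univ _⟩)
  have hk : k ∈ Kinf c := hkB.1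
  rw [Prod.tendsto_iff] at hlim
  obtain ⟨hl1, hl2⟩ := hlim
  rw [tendsto_pi_nhds] at hl1 hl2
  -- second extraction
  obtain ⟨l, -, ψ, hψ, hl⟩ := (isCompact_Icc (a := (-2 : ℝ)) (b := 2)).tendsto_subseq
    (x := fun n => pr k (wv (A (φ n)))) (fun n => _root_.abs_le.1 (bound_two h _ (hG _) k hk))
  refine ⟨φ ∘ ψ, hφ.comp hψ, fun g hg => ?_⟩
  have := main h (fun n => A (φ (ψ n))) (fun n => kk (φ (ψ n))) (fun n => hG _) (fun n => hC _)
    k hk (fun j => (hl1 j).comp hψ.tendsto_atTop) (fun i => ?_) l hl g hg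
  · simpa only [hwA, Function.comp] using this
  · refine ⟨B i, ?_⟩
    have h3 := (hl2 i).comp hψ.tendsto_atTop
    have h4 : ({B i} : Set Bool) ∈ 𝓝 (B i) := by
      rw [nhds_discrete]; exact mem_pure.2 rfl
    have h5 := h3 h4
    filter_upwards [h5] with n hn
    exact hn

end Pool.Agent.Helper81.Gat
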