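import Pool.Agent.Helper81.Gat.Basic

set_option autoImplicit false

open Filter Topology Set
open scoped Pointwise

namespace Pool.Agent.Helper81.Gat

namespace Rough

theorem pr_single (k : ℕ → ℝ) (i : ℕ) : pr k (Finsupp.single i 1) = k i := by
  simp [pr]

theorem pr_wv (k : ℕ → ℝ) (A : Finset ℕ) : pr k (wv A) = ∑ i ∈ A, k i := by
  unfold wv
  induction A using Finset.induction_on with
  | empty => simp [pr]
  | insert a s ha ih =>
    rw [Finset.sum_insert ha, Finset.sum_insert ha]
    have : pr k (Finsupp.single a 1 + ∑ i ∈ s, Finsupp.single i 1) =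
        pr k (Finsupp.single a 1) + pr k (∑ i ∈ s, Finsupp.single i 1) := by
      unfold pr
      rw [Finsupp.sum_add_index']
      · intro i; simp
      · intro i b c; ring
    rw [this, pr_single, ih]

theorem tooth_mem_plus (c : ℕ → ℕ → ℝ) (i : ℕ) : c i + Pi.single i 1 ∈ Kinf c := by
  apply KK_sub c (i + 1)
  apply subset_convexHull
  right
  exact ⟨i, Nat.lt_succ_self i, Or.inl rfl⟩

theorem tooth_mem_minus (c : ℕ → ℕ → ℝ) (i : ℕ) : c i - Pi.single i 1 ∈ Kinf c := by
  apply KK_sub c (i + 1)
  apply subset_convexHull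
  right
  exact ⟨i, Nat.lt_succ_self i, Or.inr rfl⟩

theorem nat_half_le (l : ℕ) : (l : ℝ) * (1 / 2) ^ l ≤ 1 / 2 := by
  induction l with
  | zero => norm_num
  | succ n ih =>
    rcases Nat.eq_zero_or_pos n with h | h
    · subst h; norm_num
    · have h1 : (1 : ℝ) ≤ n := by exact_mod_cast h
      have h2 : (0 : ℝ) < (1 / 2) ^ n := by positivity
      push_cast
      rw [pow_succ]
      nlinarith

theorem sum_geom_le (l : ℕ) : ∑ x ∈ Finset.range l, (1 / 2 : ℝ) ^ (x + 2) ≤ 1 / 2 := by
  have : ∑ x ∈ Finset.range l, (1 / 2 : ℝ) ^ (x + 2) = 1 / 2 - (1 / 2) ^ (l + 1) := by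
    induction l with
    | zero => norm_num
    | succ n ih => rw [Finset.sum_range_succ, ih]; ring
  rw [this]
  have : (0 : ℝ) < (1 / 2) ^ (l + 1) := by positivity
  linarith

end Rough

open Rough

theorem single_mem_WW {c : ℕ → ℕ → ℝ} {N : ℕ → ℕ} (h : Tower c N) (i : ℕ) :
    Finsupp.single i (1 : ℝ) ∈ WW c N := by
  refine ⟨{i}, c i, KK_sub c i (h.c_mem i), ?_, ?_, ?_⟩
  · intro j hj
    rw [Finset.mem_singleton] at hj
    subst hj
    have : (({j} : Finset ℕ).filter (fun i' => i' < j)) = ∅ := by
      ext x; simp; intro hx; omega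
    rw [this]; simp
  · intro j hj m _ x _
    rw [Finset.mem_singleton] at hj
    subst hj
    simp
  · simp [wv]

theorem Tower.rough {c : ℕ → ℕ → ℝ} {N : ℕ → ℕ} (h : Tower c N) (k : ℕ → ℝ)
    (hk : k ∈ Kinf c) : ∃ (g : ℕ → ℕ → ℝ) (w : ℕ → (ℕ →₀ ℝ)) (ε : ℝ), 0 < ε ∧
      (∀ m, g m ∈ Kinf c) ∧ (∀ j, Tendsto (fun m => g m j) atTop (𝓝 (k j))) ∧
      (∀ n, w n ∈ WW c N) ∧ ∀ m, ∀ᶠ n in atTop, ε ≤ |pr (g m) (w n) - pr k (w n)| := by
  have hnet : ∀ m, ∃ i, N m ≤ i ∧ i < N (m + 1) ∧
      ∀ j, |c i j - (if j < N m then k j else 0)| ≤ (1 / 2) ^ m := fun m =>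
    h.net m _ (h.trunc hk (N m))
  choose i hi1 hi2 hi3 using hnet
  have hNmono : Monotone N := h.mono.monotone
  -- closeness
  have hclose : ∀ m j, j < N m → |c (i m) j - k j| ≤ (1 / 2) ^ m := by
    intro m j hj
    have := hi3 m j
    rwa [if_pos hj] at this
  have himono : StrictMono i := by
    apply strictMono_nat_of_lt_succ
    intro n
    exact lt_of_lt_of_le (hi2 n) (hi1 (n + 1))
  have hzero : ∀ m j, N m ≤ j → c (i m) j = 0 := by
    intro m j hj
    exact h.supp (h.mem m (i m) (hi1 m) (hi2 m)) hj
  have hmemK : ∀ m, c (i m) ∈ Kinf c := fun m =>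
    KK_sub c (N m) (h.mem m (i m) (hi1 m) (hi2 m))
  have hcoh : ∀ A : Finset ℕ, (∀ x ∈ A, ∃ m, x = i m) → Coh c N A k := by
    intro A hA x hx m' hm' j hj
    obtain ⟨m, rfl⟩ := hA x hx
    have hle : m' ≤ m := by
      by_contra hcon
      push Not at hcon
      have : N (m + 1) ≤ N m' := hNmono hcon
      have := hi2 m
      omega
    have hj' : j < N m := lt_of_lt_of_le hj (hNmono hle)
    refine (hclose m j hj').trans ?_
    exact pow_le_pow_of_le_one (by norm_num) (by norm_num) hle
  have hNge : ∀ m, m ≤ N m := fun m => h.mono.le_apply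
  have htend : ∀ j, Tendsto (fun m => c (i m) j) atTop (𝓝 (k j)) := by
    intro j
    rw [tendsto_iff_norm_sub_tendsto_zero]
    have h0 : Tendsto (fun m : ℕ => ((1 : ℝ) / 2) ^ m) atTop (𝓝 0) :=
      tendsto_pow_atTop_nhds_zero_of_lt_one (by norm_num) (by norm_num)
    refine squeeze_zero' (Eventually.of_forall fun m => norm_nonneg _) ?_ h0
    filter_upwards [eventually_gt_atTop j] with m hm
    rw [Real.norm_eq_abs]
    exact hclose m j (lt_of_lt_of_le hm (hNge m))
  by_cases hB : Tendsto (fun m => k (i m)) atTop (𝓝 0)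
  · -- Case B
    have hev : ∀ l : ℕ, ∀ᶠ m in atTop, |k (i m)| ≤ (1 / 2) ^ (l + 2) := by
      intro l
      have h0 : (0 : ℝ) < (1 / 2) ^ (l + 2) := by positivity
      have := (Metric.tendsto_atTop.1 hB) _ h0
      obtain ⟨M, hM⟩ := this
      filter_upwards [eventually_ge_atTop M] with m hm
      have := hM m hm
      rw [Real.dist_eq, sub_zero] at this
      exact this.le
    obtain ⟨φ, hφ, hφk⟩ := extraction_forall_of_eventually hev
    set a : ℕ → ℕ := fun l => i (φ l) with ha
    have hamono : StrictMono a := himono.comp hφ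
    have hφge : ∀ l, l ≤ φ l := fun l => hφ.le_apply
    have hage : ∀ l, l ≤ a l := fun l => hamono.le_apply
    have hca0 : ∀ l l', l ≤ l' → c (a l) (a l') = 0 := by
      intro l l' hl
      apply hzero
      exact (hi1 (φ l)).trans (hamono.monotone hl)
    have hcak : ∀ l l', l' < l → |c (a l) (a l') - k (a l')| ≤ (1 / 2) ^ l := by
      intro l l' hl
      have h1 : a l' < N (φ l) := by
        have h2 : φ l' + 1 ≤ φ l := hφ hl
        exact lt_of_lt_of_le (hi2 (φ l')) (hNmono h2)
      refine (hclose (φ l) (a l') h1).trans ?_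
      exact pow_le_pow_of_le_one (by norm_num) (by norm_num) (hφge l)
    set σ : ℕ → ℝ := fun l => ∑ l' ∈ Finset.range l, c (a l) (a l') with hσ
    have hsumm : Summable fun l => k (a l) := by
      have hg : Summable fun l : ℕ => ((1 : ℝ) / 2) ^ (l + 2) := by
        have := (summable_geometric_of_lt_one (r := (1 : ℝ) / 2) (by norm_num) (by norm_num))
        exact (summable_nat_add_iff 2).2 this
      exact Summable.of_norm_bounded hg (fun l => by rw [Real.norm_eq_abs]; exact hφk l)
    set β : ℝ := ∑' l, k (a l) with hβ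
    let A : ℕ → Finset ℕ := fun n => (Finset.range (n + 1)).image a
    have hprA : ∀ (g : ℕ → ℝ) (n : ℕ), pr g (wv (A n)) = ∑ l ∈ Finset.range (n + 1), g (a l) := by
      intro g n
      rw [pr_wv, Finset.sum_image]
      intro x _ y _ hxy
      exact hamono.injective hxy
    let s : ℕ → ℝ := fun l => if 0 ≤ σ l - β then 1 else -1
    have hs : ∀ l, 1 ≤ |σ l + s l - β| := by
      intro l
      simp only [s]
      split_ifs with h0
      · rw [abs_of_nonneg (by linarith)]; linarith
      · push Not at h0
        rw [abs_of_neg (by linarith)]; linarith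
    refine ⟨fun l => c (a l) + s l • Pi.single (a l) 1, fun n => wv (A n), 1 / 2, by norm_num,
      ?_, ?_, ?_, ?_⟩
    · intro l
      simp only [s]
      split_ifs
      · rw [one_smul]; exact tooth_mem_plus c (a l)
      · rw [neg_one_smul, ← sub_eq_add_neg]; exact tooth_mem_minus c (a l)
    · intro j
      have h1 : Tendsto (fun l => c (a l) j) atTop (𝓝 (k j)) := (htend j).comp hφ.tendsto_atTop
      refine h1.congr' ?_
      filter_upwards [eventually_gt_atTop j] with l hl
      have hne : j ≠ a l := by have := hage l; omega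
      simp [hne]
    · intro n
      refine ⟨A n, k, hk, ?_, ?_, rfl⟩
      · intro x hx
        obtain ⟨l, hl, rfl⟩ := Finset.mem_image.1 hx
        have hsub : (A n).filter (fun i' => i' < a l) = (Finset.range l).image a := by
          ext y
          simp only [A, Finset.mem_filter, Finset.mem_image, Finset.mem_range]
          constructor
          · rintro ⟨⟨l', hl', rfl⟩, hlt⟩
            exact ⟨l', hamono.lt_iff_lt.1 hlt, rfl⟩
          · rintro ⟨l', hl', rfl⟩
            refine ⟨⟨l', ?_, rfl⟩, hamono hl'⟩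
            have := Finset.mem_range.1 hl
            omega
        rw [hsub, Finset.sum_image (fun x _ y _ hxy => hamono.injective hxy)]
        calc ∑ l' ∈ Finset.range l, |c (a l) (a l')|
            ≤ ∑ l' ∈ Finset.range l, ((1 / 2 : ℝ) ^ (l' + 2) + (1 / 2) ^ l) := by
              apply Finset.sum_le_sum
              intro l' hl'
              have h1 := hcak l l' (Finset.mem_range.1 hl')
              have h2 := hφk l'
              have h3 : |c (a l) (a l')| ≤ |c (a l) (a l') - k (a l')| + |k (a l')| := by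
                have := abs_add_le (c (a l) (a l') - k (a l')) (k (a l'))
                simpa using this
              have h4 : |k (a l')| ≤ (1 / 2) ^ (l' + 2) := h2
              linarith
          _ = ∑ l' ∈ Finset.range l, (1 / 2 : ℝ) ^ (l' + 2) + l * (1 / 2) ^ l := by
              rw [Finset.sum_add_distrib]; simp
          _ ≤ 1 / 2 + 1 / 2 := add_le_add (sum_geom_le l) (nat_half_le l)
          _ = 1 := by norm_num
      · apply hcoh
        intro x hx
        obtain ⟨l, _, rfl⟩ := Finset.mem_image.1 hx
        exact ⟨φ l, rfl⟩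
    · intro m
      have hlim : Tendsto (fun n => pr k (wv (A n))) atTop (𝓝 β) := by
        have h1 : Tendsto (fun n => ∑ l ∈ Finset.range (n + 1), k (a l)) atTop (𝓝 β) :=
          hsumm.hasSum.tendsto_sum_nat.comp (tendsto_add_atTop_nat 1)
        refine h1.congr ?_
        intro n
        rw [hprA]
      have hev1 : ∀ᶠ n in atTop, |pr k (wv (A n)) - β| < 1 / 2 := by
        have := (Metric.tendsto_atTop.1 hlim) (1 / 2) (by norm_num)
        obtain ⟨M, hM⟩ := this
        filter_upwards [eventually_ge_atTop M] with n hn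
        have := hM n hn
        rwa [Real.dist_eq] at this
      filter_upwards [hev1, eventually_ge_atTop m] with n hn1 hn2
      have hval : pr (c (a m) + s m • Pi.single (a m) 1) (wv (A n)) = σ m + s m := by
        rw [hprA]
        have hsplit : ∀ l, (c (a m) + s m • (Pi.single (a m) 1 : ℕ → ℝ)) (a l) =
            c (a m) (a l) + (if l = m then s m else 0) := by
          intro l
          by_cases hl : l = m
          · subst hl; simp
          · have : a l ≠ a m := fun h' => hl (hamono.injective h')
            simp [hl, this]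
        simp_rw [hsplit]
        rw [Finset.sum_add_distrib, Finset.sum_ite_eq' (Finset.range (n + 1)) m (fun _ => s m),
          if_pos (Finset.mem_range.2 (by omega))]
        congr 1
        rw [hσ]
        have hdis : Finset.range (n + 1) = Finset.range m ∪ Finset.Ico m (n + 1) := by
          ext x; simp; omega
        rw [hdis, Finset.sum_union]
        · rw [Finset.sum_eq_zero (s := Finset.Ico m (n + 1)), add_zero]
          intro l hl
          exact hca0 m l (Finset.mem_Ico.1 hl).1
        · rw [Finset.disjoint_left]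
          intro x hx hx'
          have h1 := Finset.mem_range.1 hx
          have h2 := (Finset.mem_Ico.1 hx').1
          omega
      show 1 / 2 ≤ |pr (c (a m) + s m • Pi.single (a m) 1) (wv (A n)) - pr k (wv (A n))|
      rw [hval]
      have h1 := hs m
      have h2 : |σ m + s m - β| ≤ |σ m + s m - pr k (wv (A n))| + |pr k (wv (A n)) - β| := by
        have := abs_add_le (σ m + s m - pr k (wv (A n))) (pr k (wv (A n)) - β)
        simpa using this
      linarith
  · -- Case A
    rw [Metric.tendsto_atTop] at hB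
    push Not at hB
    obtain ⟨ε, hε, hfreq⟩ := hB
    have hfr : ∃ᶠ m in atTop, ε ≤ |k (i m)| := by
      rw [frequently_atTop]
      intro M
      obtain ⟨m, hm1, hm2⟩ := hfreq M
      refine ⟨m, hm1, ?_⟩
      rwa [Real.dist_eq, sub_zero] at hm2
    obtain ⟨φ, hφ, hφk⟩ := extraction_of_frequently_atTop hfr
    refine ⟨fun l => c (i l), fun n => Finsupp.single (i (φ n)) 1, ε, hε, hmemK, htend,
      fun n => single_mem_WW h _, ?_⟩
    intro m
    filter_upwards [eventually_ge_atTop m] with n hn
    rw [pr_single, pr_single]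
    have h1 : c (i m) (i (φ n)) = 0 := by
      apply hzero
      have h2 : m ≤ φ n := hn.trans hφ.le_apply
      exact (hNmono h2).trans (hi1 (φ n))
    rw [h1, zero_sub, abs_neg]
    exact hφk n

end Pool.Agent.Helper81.Gat
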