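import Pool.Agent.Helper81.Gat.Defs

set_option autoImplicit false

open Filter Topology Set
open scoped Pointwise

namespace Pool.Agent.Helper81.Gat

namespace Tot

theorem totallyBounded_of_cauchy {X : Type*} [UniformSpace X] {s : Set X}
    (h : ∀ u : ℕ → X, (∀ n, u n ∈ s) → ∃ φ : ℕ → ℕ, StrictMono φ ∧ CauchySeq (u ∘ φ)) :
    TotallyBounded s := by
  intro V V_in
  contrapose! h
  obtain ⟨u, u_in, hu⟩ : ∃ u : ℕ → X, (∀ n, u n ∈ s) ∧
      ∀ n m, m < n → u m ∉ UniformSpace.ball (u n) V := by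
    simp only [not_subset, mem_iUnion₂, not_exists, exists_prop] at h
    simpa only [forall_and, forall_mem_image, not_and] using! seq_of_forall_finite_exists h
  refine ⟨u, u_in, fun φ hφ huφ => ?_⟩
  obtain ⟨N, hN⟩ : ∃ N, ∀ p q, p ≥ N → q ≥ N → (u (φ p), u (φ q)) ∈ V :=
    huφ.mem_entourage V_in
  exact hu (φ <| N + 1) (φ N) (hφ <| Nat.lt_add_one N) (hN (N + 1) N N.le_succ le_rfl)

theorem not_totallyBounded {X : Type*} [PseudoMetricSpace X] {s : Set X} (hs : TotallyBounded s)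
    (x : ℕ → X) (hx : ∀ n, x n ∈ s) (c : ℝ) (hc : 0 < c)
    (h : ∀ i j, i ≠ j → c ≤ dist (x i) (x j)) : False := by
  obtain ⟨t, ht, hst⟩ := Metric.totallyBounded_iff.1 hs (c / 2) (by positivity)
  have h1 : ∀ n, ∃ y : t, dist (x n) y < c / 2 := by
    intro n
    have := hst (hx n)
    simp only [mem_iUnion, Metric.mem_ball, exists_prop] at this
    obtain ⟨y, hy, hd⟩ := this
    exact ⟨⟨y, hy⟩, hd⟩
  choose f hf using h1
  have := ht.to_subtype
  obtain ⟨i, j, hij, hfij⟩ := Finite.exists_ne_map_eq_of_infinite f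
  have h2 := hf i
  have h3 := hf j
  rw [← hfij] at h3
  have h4 := h i j hij
  have h5 := dist_triangle_right (x i) (x j) (f i)
  linarith

section

variable {Ω : Type*} [TopologicalSpace Ω] [CompactSpace Ω]
    [TopologicalSpace.MetrizableSpace Ω] [MeasurableSpace Ω] [BorelSpace Ω]
    (μ : MeasureTheory.Measure Ω) [MeasureTheory.IsProbabilityMeasure μ]

/-- The map `C(Ω) → L¹(μ)`. -/
noncomputable def T0 : C(Ω, ℝ) →L[ℝ] MeasureTheory.Lp ℝ 1 μ := ContinuousMap.toLp 1 μ ℝ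

omit [TopologicalSpace.MetrizableSpace Ω] in
theorem dist_T0 (f g : C(Ω, ℝ)) : dist (T0 μ f) (T0 μ g) = ∫ x, |f x - g x| ∂μ := by
  rw [dist_eq_norm, ← map_sub, MeasureTheory.L1.norm_eq_integral_norm]
  refine MeasureTheory.integral_congr_ae ?_
  filter_upwards [ContinuousMap.coeFn_toLp (p := 1) (𝕜 := ℝ) μ (f - g)] with x hx
  unfold T0
  rw [hx, Real.norm_eq_abs]
  rfl

theorem tb_image (W : Set C(Ω, ℝ)) (R : ℝ) (hb : ∀ w ∈ W, ‖w‖ ≤ R)
    (hW : ∀ w : ℕ → C(Ω, ℝ), (∀ n, w n ∈ W) → ∃ φ : ℕ → ℕ, StrictMono φ ∧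
      ∀ x, ∃ l, Tendsto (fun n => w (φ n) x) atTop (𝓝 l)) :
    TotallyBounded (T0 μ '' W) := by
  refine totallyBounded_of_cauchy fun u hu => ?_
  choose w hw hwu using hu
  obtain ⟨φ, hφ, hl⟩ := hW w hw
  choose g hg using hl
  refine ⟨φ, hφ, ?_⟩
  have hbd : ∀ n x, |w (φ n) x| ≤ R := fun n x =>
    ((w (φ n)).norm_coe_le_norm x).trans (hb _ (hw _))
  have hgm : Measurable g :=
    measurable_of_tendsto_metrizable (fun n => (w (φ n)).continuous.measurable)
      (tendsto_pi_nhds.2 hg)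
  have hgb : ∀ x, |g x| ≤ R := fun x =>
    le_of_tendsto' ((continuous_abs.tendsto _).comp (hg x)) fun n => hbd n x
  have hint : ∀ n, MeasureTheory.Integrable (fun x => |w (φ n) x - g x|) μ := by
    intro n
    refine MeasureTheory.Integrable.of_bound
      (((w (φ n)).continuous.measurable.sub hgm).abs.aestronglyMeasurable) (R + R)
      (Eventually.of_forall fun x => ?_)
    rw [Real.norm_eq_abs, abs_abs]
    exact (abs_sub _ _).trans (add_le_add (hbd n x) (hgb x))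
  have hlim : Tendsto (fun n => ∫ x, |w (φ n) x - g x| ∂μ) atTop (𝓝 0) := by
    have h1 : Tendsto (fun n => ∫ x, |w (φ n) x - g x| ∂μ) atTop (𝓝 (∫ _, (0 : ℝ) ∂μ)) := by
      refine MeasureTheory.tendsto_integral_of_dominated_convergence (fun _ => R + R)
        (fun n => (hint n).aestronglyMeasurable) (MeasureTheory.integrable_const _)
        (fun n => Eventually.of_forall fun x => ?_) (Eventually.of_forall fun x => ?_)
      · rw [Real.norm_eq_abs, abs_abs]
        exact (abs_sub _ _).trans (add_le_add (hbd n x) (hgb x))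
      · have h2 := ((hg x).sub_const (g x)).abs
        simpa using h2
    simpa using h1
  rw [Metric.cauchySeq_iff]
  intro ε hε
  obtain ⟨N, hN⟩ := (Metric.tendsto_atTop.1 hlim) (ε / 2) (by positivity)
  refine ⟨N, fun m hm n hn => ?_⟩
  simp only [Function.comp_apply]
  rw [← hwu, ← hwu, dist_T0]
  have h1 := hN m hm
  have h2 := hN n hn
  rw [Real.dist_eq, sub_zero] at h1 h2
  have h3 := (le_abs_self _).trans_lt h1
  have h4 := (le_abs_self _).trans_lt h2
  have h5 : ∫ x, |w (φ m) x - w (φ n) x| ∂μ ≤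
      ∫ x, (|w (φ m) x - g x| + |w (φ n) x - g x|) ∂μ := by
    refine MeasureTheory.integral_mono_of_nonneg (Eventually.of_forall fun x => abs_nonneg _)
      ((hint m).add (hint n)) (Eventually.of_forall fun x => ?_)
    have h6 : w (φ m) x - w (φ n) x = (w (φ m) x - g x) - (w (φ n) x - g x) := by ring
    simp only
    rw [h6]
    exact abs_sub _ _
  rw [MeasureTheory.integral_add (hint m) (hint n)] at h5
  linarith

end

end Tot

theorem no_separated {Ω : Type*} [TopologicalSpace Ω] [CompactSpace Ω]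
    [TopologicalSpace.MetrizableSpace Ω] [MeasurableSpace Ω] [BorelSpace Ω]
    (μ : MeasureTheory.Measure Ω) [MeasureTheory.IsProbabilityMeasure μ] (W : Set C(Ω, ℝ)) (R : ℝ)
    (hb : ∀ w ∈ W, ‖w‖ ≤ R)
    (hW : ∀ w : ℕ → C(Ω, ℝ), (∀ n, w n ∈ W) → ∃ φ : ℕ → ℕ, StrictMono φ ∧
      ∀ x, ∃ l, Tendsto (fun n => w (φ n) x) atTop (𝓝 l))
    (y : ℕ → C(Ω, ℝ)) (T : ℝ) (hy : ∀ n, y n ∈ T • convexHull ℝ (W ∪ -W)) (c : ℝ) (hc : 0 < c)
    (h : ∀ i j, i ≠ j → c ≤ ∫ x, |y i x - y j x| ∂μ) : False := by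
  have h1 := Tot.tb_image μ W R hb hW
  have h2 : TotallyBounded (Tot.T0 μ '' (W ∪ -W)) := by
    rw [image_union]
    refine h1.union ?_
    have h3 : Tot.T0 μ '' (-W) = (fun x => -x) '' (Tot.T0 μ '' W) := by
      ext z
      simp only [mem_image, Set.mem_neg]
      constructor
      · rintro ⟨w, hw, rfl⟩
        exact ⟨_, ⟨-w, hw, rfl⟩, by rw [map_neg, neg_neg]⟩
      · rintro ⟨_, ⟨w, hw, rfl⟩, rfl⟩
        exact ⟨-w, by rwa [neg_neg], map_neg _ _⟩
    rw [h3]
    exact h1.image uniformContinuous_id.neg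
  have h4 := h2.convexHull.image (uniformContinuous_const_smul T)
  refine Tot.not_totallyBounded h4 (fun n => Tot.T0 μ (y n)) (fun n => ?_) c hc fun i j hij => ?_
  · obtain ⟨z, hz, hzy⟩ := hy n
    refine ⟨Tot.T0 μ z, ?_, ?_⟩
    · have h5 : Tot.T0 μ '' (convexHull ℝ (W ∪ -W)) = convexHull ℝ (Tot.T0 μ '' (W ∪ -W)) :=
        (Tot.T0 μ).toLinearMap.image_convexHull _
      rw [← h5]
      exact ⟨z, hz, rfl⟩
    · simp only at hzy ⊢
      rw [← hzy, map_smul]
  · rw [Tot.dist_T0]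
    exact h i j hij

end Pool.Agent.Helper81.Gat
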