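import Pool.Agent.Helper81.Gat.Defs

/-!
# GAT-1: existence of the tower of polytopes
-/

set_option autoImplicit false

open Filter Topology Set
open scoped Pointwise

namespace Pool.Agent.Helper81.Gat

namespace TowerMod

theorem teeth_finite (c : ℕ → ℕ → ℝ) (n : ℕ) : (teeth c n).Finite := by
  unfold teeth
  apply (Set.finite_singleton _).union
  have : {t : ℕ → ℝ | ∃ i < n, t = c i + Pi.single i 1 ∨ t = c i - Pi.single i 1} ⊆
      (fun i => c i + Pi.single i 1) '' (Iio n) ∪ (fun i => c i - Pi.single i 1) '' (Iio n) := by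
    rintro t ⟨i, hi, rfl | rfl⟩
    · exact Or.inl ⟨i, hi, rfl⟩
    · exact Or.inr ⟨i, hi, rfl⟩
  exact (((Set.finite_Iio n).image _).union ((Set.finite_Iio n).image _)).subset this

theorem compact_KK (c : ℕ → ℕ → ℝ) (n : ℕ) : IsCompact (KK c n) :=
  (teeth_finite c n).isCompact_convexHull (𝕜 := ℝ)

theorem zero_mem (c : ℕ → ℕ → ℝ) (n : ℕ) : (0 : ℕ → ℝ) ∈ KK c n :=
  subset_convexHull ℝ _ (Or.inl rfl)

theorem teeth_congr {c c' : ℕ → ℕ → ℝ} {n : ℕ} (h : ∀ i < n, c i = c' i) :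
    teeth c n = teeth c' n := by
  unfold teeth
  congr 1
  ext t
  constructor
  · rintro ⟨i, hi, ht⟩
    exact ⟨i, hi, by rwa [h i hi] at ht⟩
  · rintro ⟨i, hi, ht⟩
    exact ⟨i, hi, by rwa [← h i hi] at ht⟩

theorem KK_congr {c c' : ℕ → ℕ → ℝ} {n : ℕ} (h : ∀ i < n, c i = c' i) :
    KK c n = KK c' n := by
  unfold KK
  rw [teeth_congr h]

theorem vanish {c : ℕ → ℕ → ℝ} {n : ℕ} (h : ∀ i < n, ∀ j ≥ n, c i j = 0) {p : ℕ → ℝ}
    (hp : p ∈ KK c n) (j : ℕ) (hj : n ≤ j) : p j = 0 := by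
  have hsub : KK c n ⊆ {p : ℕ → ℝ | p j = 0} := by
    apply convexHull_min
    · rintro t (rfl | ⟨i, hi, rfl | rfl⟩)
      · rfl
      · have : j ≠ i := by omega
        simp [h i hi j hj, this]
      · have : j ≠ i := by omega
        simp [h i hi j hj, this]
    · intro x hx y hy a b _ _ _
      simp only [Set.mem_ofPred_eq] at hx hy ⊢
      simp [hx, hy]
  exact hsub hp

theorem step (m : ℕ) (c : ℕ → ℕ → ℝ) (n : ℕ) (h : ∀ i < n, ∀ j ≥ n, c i j = 0) :
    ∃ (c' : ℕ → ℕ → ℝ) (n' : ℕ), n < n' ∧ (∀ i < n', ∀ j ≥ n', c' i j = 0) ∧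
      (∀ i < n, c' i = c i) ∧ (∀ i, n ≤ i → i < n' → c' i ∈ KK c n) ∧
      ∀ p ∈ KK c n, ∃ i, n ≤ i ∧ i < n' ∧ ∀ j, |c' i j - p j| ≤ (1 / 2 : ℝ) ^ m := by
  have hpos : (0 : ℝ) < (1 / 2) ^ m := by positivity
  obtain ⟨t, ht, hcov⟩ := (compact_KK c n).elim_nhds_subcover
    (fun q => ⋂ j ∈ Finset.range n, {p : ℕ → ℝ | |q j - p j| < (1 / 2 : ℝ) ^ m}) (by
      intro q _
      rw [Filter.biInter_finset_mem]
      intro j _
      apply IsOpen.mem_nhds
      · apply isOpen_lt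
        · fun_prop
        · exact continuous_const
      · simp)
  set l := t.toList with hl
  have hmem : ∀ x, x ∈ l ↔ x ∈ t := fun x => Finset.mem_toList
  have hlen : 0 < l.length := by
    rw [List.length_pos_iff]
    intro h0
    have := hcov (zero_mem c n)
    rw [mem_iUnion₂] at this
    obtain ⟨q, hq, _⟩ := this
    rw [← hmem, h0] at hq
    exact absurd hq (List.not_mem_nil)
  refine ⟨fun i => if i < n then c i else l.getD (i - n) 0, n + l.length, by omega, ?_, ?_, ?_, ?_⟩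
  · intro i hi j hj
    by_cases hin : i < n
    · simp only [if_pos hin]
      exact h i hin j (by omega)
    · simp only [if_neg hin]
      have hlt : i - n < l.length := by omega
      rw [List.getD_eq_getElem _ _ hlt]
      have h2 : l[i - n] ∈ t := (hmem _).1 (List.getElem_mem hlt)
      exact vanish h (ht _ h2) j (by omega)
  · intro i hi
    simp only [if_pos hi]
  · intro i hni hi
    simp only [if_neg (show ¬ i < n by omega)]
    have hlt : i - n < l.length := by omega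
    rw [List.getD_eq_getElem _ _ hlt]
    exact ht _ ((hmem _).1 (List.getElem_mem hlt))
  · intro p hp
    have := hcov hp
    rw [mem_iUnion₂] at this
    obtain ⟨q, hq, hqp⟩ := this
    obtain ⟨k, hk, hkq⟩ := List.getElem_of_mem ((hmem q).2 hq)
    refine ⟨n + k, by omega, by omega, ?_⟩
    intro j
    simp only [if_neg (show ¬ n + k < n by omega)]
    rw [show n + k - n = k by omega, List.getD_eq_getElem _ _ hk, hkq]
    by_cases hj : j < n
    · rw [mem_iInter₂] at hqp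
      have := hqp j (Finset.mem_range.2 hj)
      exact le_of_lt this
    · rw [vanish h (ht _ hq) j (by omega), vanish h hp j (by omega)]
      simp

end TowerMod

theorem exists_tower : ∃ (c : ℕ → ℕ → ℝ) (N : ℕ → ℕ), Tower c N := by
  let St := {s : (ℕ → ℕ → ℝ) × ℕ // ∀ i < s.2, ∀ j ≥ s.2, s.1 i j = 0}
  have hstep : ∀ (m : ℕ) (s : St), ∃ s' : St, s.1.2 < s'.1.2 ∧
      (∀ i < s.1.2, s'.1.1 i = s.1.1 i) ∧
      (∀ i, s.1.2 ≤ i → i < s'.1.2 → s'.1.1 i ∈ KK s.1.1 s.1.2) ∧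
      ∀ p ∈ KK s.1.1 s.1.2, ∃ i, s.1.2 ≤ i ∧ i < s'.1.2 ∧
        ∀ j, |s'.1.1 i j - p j| ≤ (1 / 2 : ℝ) ^ m := by
    intro m s
    obtain ⟨c', n', h1, h2, h3, h4, h5⟩ := TowerMod.step m s.1.1 s.1.2 s.2
    exact ⟨⟨(c', n'), h2⟩, h1, h3, h4, h5⟩
  choose F hF using hstep
  let S : ℕ → St := fun m => Nat.rec ⟨(0, 0), fun _ _ _ _ => rfl⟩ (fun m s => F m s) m
  have hS : ∀ m, S (m + 1) = F m (S m) := fun m => rfl
  let N : ℕ → ℕ := fun m => (S m).1.2
  let C : ℕ → ℕ → ℕ → ℝ := fun m => (S m).1.1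
  have h1 : ∀ m, N m < N (m + 1) := fun m => (hF m (S m)).1
  have h2 : ∀ m, ∀ i < N m, C (m + 1) i = C m i := fun m => (hF m (S m)).2.1
  have h3 : ∀ m i, N m ≤ i → i < N (m + 1) → C (m + 1) i ∈ KK (C m) (N m) :=
    fun m => (hF m (S m)).2.2.1
  have h4 : ∀ m, ∀ p ∈ KK (C m) (N m), ∃ i, N m ≤ i ∧ i < N (m + 1) ∧
        ∀ j, |C (m + 1) i j - p j| ≤ (1 / 2 : ℝ) ^ m := fun m => (hF m (S m)).2.2.2
  have hmono : StrictMono N := strictMono_nat_of_lt_succ h1
  have hle : ∀ m, m ≤ N m := fun m => hmono.le_apply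
  have hext : ∀ m k, ∀ i < N m, C (m + k) i = C m i := by
    intro m k
    induction k with
    | zero => intro i _; rfl
    | succ k ih =>
      intro i hi
      have hik : i < N (m + k) := lt_of_lt_of_le hi (hmono.monotone (Nat.le_add_right m k))
      rw [← add_assoc, h2 (m + k) i hik, ih i hi]
  have hc : ∀ m, ∀ i < N m, C (i + 1) i = C m i := by
    intro m i hi
    have hi' : i < N (i + 1) := lt_of_lt_of_le (Nat.lt_succ_self i) (hle (i + 1))
    rcases le_total m (i + 1) with h | h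
    · obtain ⟨k, hk⟩ := Nat.exists_eq_add_of_le h
      rw [hk]
      exact hext m k i hi
    · obtain ⟨k, hk⟩ := Nat.exists_eq_add_of_le h
      rw [hk]
      exact (hext (i + 1) k i hi').symm
  have hKK : ∀ m, KK (fun i => C (i + 1) i) (N m) = KK (C m) (N m) := fun m =>
    TowerMod.KK_congr (fun i hi => hc m i hi)
  refine ⟨fun i => C (i + 1) i, N, ⟨rfl, hmono, ?_, ?_⟩⟩
  · intro m i hi hi'
    rw [hKK]
    show C (i + 1) i ∈ _
    rw [hc (m + 1) i hi']
    exact h3 m i hi hi'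
  · intro m p hp
    rw [hKK] at hp
    obtain ⟨i, hi, hi', hj⟩ := h4 m p hp
    refine ⟨i, hi, hi', ?_⟩
    intro j
    show |C (i + 1) i j - p j| ≤ _
    rw [hc (m + 1) i hi']
    exact hj j

end Pool.Agent.Helper81.Gat
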