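import Pool.Agent.Helper93.GateauxBack
import Pool.Agent.Helper81.Gat.Tower
import Pool.Agent.Helper81.Gat.Basic
import Pool.Agent.Helper81.Gat.Bound
import Pool.Agent.Helper81.Gat.Precomp
import Pool.Agent.Helper81.Gat.Rough
import Pool.Agent.Helper81.Gat.Meas
import Pool.Agent.Helper81.Gat.Tot
import Pool.Agent.Helper81.Gat.Interp

/-!
# The Banach space: seminorms on the finitely supported sequences and the completion
-/

set_option autoImplicit false

open Filter Topology Set TopologicalSpace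
open scoped Pointwise

namespace Pool.Agent.Helper81.Gat.Sp

noncomputable def cc : ℕ → ℕ → ℝ := exists_tower.choose

noncomputable def NN : ℕ → ℕ := exists_tower.choose_spec.choose

theorem tw : Tower cc NN := exists_tower.choose_spec.choose_spec

abbrev Om : Type := ↥(Kinf cc)

instance : CompactSpace Om := isCompact_iff_compactSpace.mp tw.isCompact

lemma pr_eq (k : ℕ → ℝ) (x : ℕ →₀ ℝ) : pr k x = Finsupp.linearCombination ℝ k x := rfl

lemma pr_single (k : ℕ → ℝ) (i : ℕ) : pr k (Finsupp.single i 1) = k i := by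
  rw [pr_eq, Finsupp.linearCombination_single, one_smul]

noncomputable def coordC (i : ℕ) : C(Om, ℝ) := ⟨fun k => k.1 i, (continuous_apply i).comp continuous_subtype_val⟩

noncomputable def ev : (ℕ →₀ ℝ) →ₗ[ℝ] C(Om, ℝ) := Finsupp.linearCombination ℝ coordC

lemma ev_apply (x : ℕ →₀ ℝ) (k : Om) : ev x k = pr k.1 x := by
  rw [ev, Finsupp.linearCombination_apply, pr, Finsupp.sum, Finsupp.sum, ContinuousMap.coe_sum,
    Finset.sum_apply]
  rfl

noncomputable def pp : Seminorm ℝ (ℕ →₀ ℝ) := (normSeminorm ℝ C(Om, ℝ)).comp ev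

lemma pp_apply (x : ℕ →₀ ℝ) : pp x = ‖ev x‖ := rfl

lemma abs_pr_le {k : ℕ → ℝ} (hk : k ∈ Kinf cc) (x : ℕ →₀ ℝ) : |pr k x| ≤ pp x := by
  have h := (ev x).norm_coe_le_norm ⟨k, hk⟩
  rwa [ev_apply, Real.norm_eq_abs] at h

lemma pp_le {x : ℕ →₀ ℝ} {R : ℝ} (hR : 0 ≤ R) (h : ∀ k ∈ Kinf cc, |pr k x| ≤ R) : pp x ≤ R := by
  rw [pp_apply, ContinuousMap.norm_le _ hR]
  intro k
  rw [ev_apply, Real.norm_eq_abs]
  exact h k.1 k.2

/-- The convex hull of the chain vectors and their negatives. -/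
def HH : Set (ℕ →₀ ℝ) := convexHull ℝ (WW cc NN ∪ -WW cc NN)

lemma convex_HH : Convex ℝ HH := convex_convexHull ℝ _

lemma neg_HH ⦃x : ℕ →₀ ℝ⦄ (hx : x ∈ HH) : -x ∈ HH := by
  have h : -HH = HH := by
    rw [HH, ← convexHull_neg]
    congr 1
    rw [Set.union_neg, neg_neg, Set.union_comm]
  rw [← h]
  simpa using hx

lemma balanced_HH : Balanced ℝ HH := (balanced_iff_neg_mem convex_HH).2 neg_HH

lemma sub_HH {w : ℕ →₀ ℝ} (hw : w ∈ WW cc NN) : w ∈ HH := subset_convexHull ℝ _ (Or.inl hw)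

lemma exists_smul_HH (x : ℕ →₀ ℝ) : ∃ t : ℝ, 0 < t ∧ x ∈ t • HH := by
  have h0 : (0 : ℕ →₀ ℝ) ∈ HH := by
    have h := sub_HH (single_mem_WW tw 0)
    have h2 := convex_HH h (neg_HH h) (show (0 : ℝ) ≤ 1 / 2 by norm_num)
      (show (0 : ℝ) ≤ 1 / 2 by norm_num) (by norm_num)
    simpa using h2
  induction x using Finsupp.induction_linear with
  | zero => exact ⟨1, one_pos, by simpa using h0⟩
  | add f g hf hg =>
    obtain ⟨s, hs, hf⟩ := hf
    obtain ⟨t, ht, hg⟩ := hg
    refine ⟨s + t, add_pos hs ht, ?_⟩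
    rw [convex_HH.add_smul hs.le ht.le]
    exact Set.add_mem_add hf hg
  | single i a =>
    have h := sub_HH (single_mem_WW tw i)
    refine ⟨|a| + 1, by positivity, ?_⟩
    have h1 : Finsupp.single i a = (|a| + 1) • ((a / (|a| + 1)) • Finsupp.single i (1 : ℝ)) := by
      rw [smul_smul, Finsupp.smul_single, smul_eq_mul, mul_one]
      congr 1
      have : (|a| + 1 : ℝ) ≠ 0 := by positivity
      field_simp
    rw [h1]
    refine Set.smul_mem_smul_set (balanced_HH _ ?_ ⟨_, h, rfl⟩)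
    rw [Real.norm_eq_abs, abs_div, abs_of_pos (show (0 : ℝ) < |a| + 1 by positivity)]
    exact div_le_one_of_le₀ (by linarith [abs_nonneg a]) (by positivity)

lemma absorbent_HH : Absorbent ℝ HH := by
  intro x
  obtain ⟨t, ht, hx⟩ := exists_smul_HH x
  rw [absorbs_iff_norm]
  refine ⟨t, fun c hc => ?_⟩
  rw [singleton_subset_iff]
  have h1 : (t • HH : Set (ℕ →₀ ℝ)) ⊆ c • HH := balanced_HH.smul_mono (by
    rwa [Real.norm_eq_abs, abs_of_pos ht])
  exact h1 hx

/-- The seminorm `q`. -/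
noncomputable def qq : Seminorm ℝ (ℕ →₀ ℝ) := gaugeSeminorm balanced_HH convex_HH absorbent_HH

lemma qq_le_one {w : ℕ →₀ ℝ} (hw : w ∈ WW cc NN) : qq w ≤ 1 := gauge_le_one_of_mem (sub_HH hw)

lemma mem_of_qq_le {y : ℕ →₀ ℝ} {T : ℝ} (h : qq y ≤ T) : y ∈ (T + 1) • HH := by
  have hT : 0 ≤ T := (apply_nonneg qq y).trans h
  obtain ⟨b, hb, hbT, hy⟩ := exists_lt_of_gauge_lt absorbent_HH
    (show gauge HH y < T + 1 from lt_of_le_of_lt h (lt_add_one T))
  have h1 : (b • HH : Set (ℕ →₀ ℝ)) ⊆ (T + 1) • HH := balanced_HH.smul_mono (by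
    rw [Real.norm_eq_abs, Real.norm_eq_abs, abs_of_pos hb, abs_of_pos (by linarith)]
    exact hbT.le)
  exact h1 hy

lemma pp_wv {w : ℕ →₀ ℝ} (hw : w ∈ WW cc NN) : pp w ≤ 2 := by
  obtain ⟨A, k, hk, hA, hAk, rfl⟩ := hw
  refine pp_le (by norm_num) fun g hg => ?_
  have h := tw.bound A hA 1 0 0 (by simp) (by simp) (by simp [pr]) (by simp [pr]) g hg
  simpa [pr] using h

lemma pp_HH {x : ℕ →₀ ℝ} (hx : x ∈ HH) : pp x ≤ 2 := by
  have h1 : Convex ℝ {x | pp x ≤ 2} := by
    have := pp.convexOn.convex_le 2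
    simpa using this
  have h2 : WW cc NN ∪ -WW cc NN ⊆ {x | pp x ≤ 2} := by
    rintro x (hx | hx)
    · exact pp_wv hx
    · have := pp_wv (Set.mem_neg.1 hx)
      rwa [map_neg_eq_map] at this
  exact convexHull_min h2 h1 hx

lemma pp_le_qq (x : ℕ →₀ ℝ) : pp x ≤ 2 * qq x := by
  refine le_of_forall_pos_lt_add fun ε hε => ?_
  obtain ⟨b, hb, hbT, y, hy, rfl⟩ := exists_lt_of_gauge_lt absorbent_HH
    (show gauge HH x < qq x + ε / 2 from lt_add_of_pos_right _ (by positivity))
  have h1 : pp (b • y) = b * pp y := by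
    rw [map_smul_eq_mul, Real.norm_eq_abs, abs_of_pos hb]
  have h2 := mul_le_mul_of_nonneg_left (pp_HH hy) hb.le
  simp only at hbT h1 ⊢
  rw [h1]
  linarith

/-- The norm. -/
noncomputable def nn : Seminorm ℝ (ℕ →₀ ℝ) := nrm pp qq

lemma pp_le_nn (x : ℕ →₀ ℝ) : pp x ≤ 2 * nn x := le_nrm pp qq pp_le_qq x

lemma eq_zero_of_nn {x : ℕ →₀ ℝ} (h : nn x = 0) : x = 0 := by
  have h1 := pp_le_nn x
  rw [h, mul_zero] at h1
  ext i
  have hp : ∀ k ∈ Kinf cc, pr k x = 0 := fun k hk =>
    abs_eq_zero.1 (le_antisymm ((abs_pr_le hk x).trans h1) (abs_nonneg _))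
  have hm1 : cc i + Pi.single i 1 ∈ Kinf cc :=
    KK_sub cc (i + 1) (subset_convexHull ℝ _ (Or.inr ⟨i, Nat.lt_succ_self i, Or.inl rfl⟩))
  have hm2 : cc i - Pi.single i 1 ∈ Kinf cc :=
    KK_sub cc (i + 1) (subset_convexHull ℝ _ (Or.inr ⟨i, Nat.lt_succ_self i, Or.inr rfl⟩))
  have e1 := hp _ hm1
  have e2 := hp _ hm2
  have e3 : pr (cc i + Pi.single i 1) x - pr (cc i - Pi.single i 1) x = 2 * x i := by
    rw [pr, pr, Finsupp.sum, Finsupp.sum, ← Finset.sum_sub_distrib]
    have : ∀ j ∈ x.support, x j * (cc i + Pi.single i 1 : ℕ → ℝ) j -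
        x j * (cc i - Pi.single i 1 : ℕ → ℝ) j = if j = i then 2 * x i else 0 := by
      intro j _
      simp only [Pi.add_apply, Pi.sub_apply, Pi.single_apply]
      split_ifs with hj
      · rw [hj]
        ring
      · ring
    rw [Finset.sum_congr rfl this, Finset.sum_ite_eq']
    split_ifs with hi
    · rfl
    · rw [Finsupp.notMem_support_iff.1 hi, mul_zero]
  rw [e1, e2] at e3
  simp only [Finsupp.coe_zero, Pi.zero_apply]
  linarith

/-- The finitely supported sequences with the norm `nn`. -/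
def V : Type := ℕ →₀ ℝ

noncomputable instance : AddCommGroup V := inferInstanceAs (AddCommGroup (ℕ →₀ ℝ))

noncomputable instance : Module ℝ V := inferInstanceAs (Module ℝ (ℕ →₀ ℝ))

noncomputable instance : Norm V := ⟨fun x => nn x⟩

/-- The identity map. -/
noncomputable def toV : (ℕ →₀ ℝ) ≃ₗ[ℝ] V := LinearEquiv.refl ℝ _

lemma norm_toV (x : ℕ →₀ ℝ) : ‖toV x‖ = nn x := rfl

lemma core : NormedSpace.Core ℝ V where
  norm_nonneg x := apply_nonneg nn _
  norm_smul c x := map_smul_eq_mul nn c (toV.symm x)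
  norm_triangle x y := map_add_le_add nn _ _
  norm_eq_zero_iff x := ⟨fun h => eq_zero_of_nn h, fun h => by rw [h]; exact map_zero nn⟩

noncomputable instance : NormedAddCommGroup V := NormedAddCommGroup.ofCore core

noncomputable instance : NormedSpace ℝ V := NormedSpace.ofCore core

lemma norm_toV' (x : ℕ →₀ ℝ) : ‖toV x‖ = nn x := rfl

/-- The Banach space. -/
abbrev XX : Type := UniformSpace.Completion V

noncomputable example : NormedAddCommGroup XX := inferInstance
noncomputable example : NormedSpace ℝ XX := inferInstance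
noncomputable example : CompleteSpace XX := inferInstance

/-- The canonical embedding. -/
noncomputable def jj : (ℕ →₀ ℝ) →ₗ[ℝ] XX :=
  (UniformSpace.Completion.toComplL (𝕜 := ℝ) (E := V)).toLinearMap ∘ₗ toV.toLinearMap

lemma norm_jj (x : ℕ →₀ ℝ) : ‖jj x‖ = nn x := by
  have : jj x = ((toV x : V) : XX) := rfl
  rw [this, UniformSpace.Completion.norm_coe]
  rfl

lemma denseRange_jj : DenseRange jj := by
  have h := UniformSpace.Completion.denseRange_coe (α := V)
  exact h

instance : SeparableSpace V := by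
  rw [← isSeparable_univ_iff]
  have h1 : (univ : Set V) = (Submodule.span ℝ (range fun i : ℕ => toV (Finsupp.single i 1)) :
      Submodule ℝ V) := by
    symm
    rw [← Submodule.top_coe (R := ℝ) (M := V)]
    congr 1
    rw [eq_top_iff]
    intro x _
    have : ∀ y : ℕ →₀ ℝ, toV y ∈ Submodule.span ℝ (range fun i : ℕ => toV (Finsupp.single i 1)) := by
      intro y
      induction y using Finsupp.induction_linear with
      | zero => rw [map_zero]; exact Submodule.zero_mem _
      | add f g hf hg => rw [map_add]; exact Submodule.add_mem _ hf hg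
      | single i a =>
        have : toV (Finsupp.single i a) = a • toV (Finsupp.single i 1) := by
          rw [← map_smul, Finsupp.smul_single, smul_eq_mul, mul_one]
        rw [this]
        exact Submodule.smul_mem _ _ (Submodule.subset_span ⟨i, rfl⟩)
    exact this (toV.symm x)
  rw [h1]
  exact (Set.countable_range _).isSeparable.span

noncomputable example : SeparableSpace XX := inferInstance

end Pool.Agent.Helper81.Gat.Sp
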